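import Mathlib

/-!
# Planar graphs and the unit bar visibility number (problem MP_482ee1_co)

We show that every planar graph `G` has a unit bar visibility representation with at most
`⌈(Δ(G) + 1) / 3⌉ + 1` bars per vertex. Hence `ub(G) = ⌈(Δ(G) + 1) / 3⌉ + 2` never happens for
planar `G`.

Outline.
* Planar graphs (topological drawings) have no `K₅` minor: five points in the plane cannot be
  joined by ten curves with curves of disjoint pairs disjoint (`no_K5_continuous`; polygonal
  approximation and a parity count).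
* Graphs without a `K₅` minor satisfy `|E| ≤ 3 |V| - 6` (`mader5`), hence every set `A` of edges
  of a planar graph touches at least `|A| / 3` vertices.
* By Hall's theorem the edges can be directed such that all outdegrees are at most `3`.
* Decompose the arcs into a minimal number of directed trails. Every vertex on a trail other than
  its last vertex gets its own bar; trails ending at `u` are grouped by three, the three trails
  of a group share one bar of `u`. Each group is drawn as a spider of unit bars (`spos`).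
* A vertex `u` with outdegree `o` and indegree `i` uses at most `o + ⌈(i - o) / 3⌉` bars, or
  `o + 1` bars in case `i = o`; this is at most `⌈(Δ + 1) / 3⌉ + 1`.
-/

set_option autoImplicit false
set_option linter.unusedSectionVars false

namespace Pool.Agent.Results.MP_482ee1_co.PlanarUnitBar

/-! ## Definitions used in the statement -/

/-- The bar (closed horizontal segment of length `1`) with left endpoint `b`. -/
def bar (b : ℝ × ℝ) : Set (ℝ × ℝ) := {z | b.1 ≤ z.1 ∧ z.1 ≤ b.1 + 1 ∧ z.2 = b.2}

/-- The closed vertical channel over the interval `[p, q]` between the heights `y` and `y'`. -/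
def channel (p q y y' : ℝ) : Set (ℝ × ℝ) :=
  {z | p ≤ z.1 ∧ z.1 ≤ q ∧ min y y' ≤ z.2 ∧ z.2 ≤ max y y'}

/-- In the arrangement of all bars with left endpoints in `A`, the two (different) bars with left
endpoints `b` and `c` see each other: some vertical channel of positive width joins them and meets
no other bar of the arrangement. -/
def Sees (A : Set (ℝ × ℝ)) (b c : ℝ × ℝ) : Prop :=
  b ≠ c ∧ ∃ p q : ℝ, p < q ∧ b.1 ≤ p ∧ q ≤ b.1 + 1 ∧ c.1 ≤ p ∧ q ≤ c.1 + 1 ∧
    ∀ d ∈ A, d ≠ b → d ≠ c → Disjoint (bar d) (channel p q b.2 c.2)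

/-- `B` is a `t`-unit-bar visibility representation of `G`; the bars assigned to `v` are those
with left endpoints in `B v`. -/
structure IsUnitBarRep {V : Type*} (G : SimpleGraph V) (t : ℕ) (B : V → Finset (ℝ × ℝ)) :
    Prop where
  card_le : ∀ v, (B v).card ≤ t
  disjoint : ∀ v w, ∀ b ∈ B v, ∀ c ∈ B w, (v, b) ≠ (w, c) → Disjoint (bar b) (bar c)
  adj_iff : ∀ v w, v ≠ w →
    (G.Adj v w ↔ ∃ b ∈ B v, ∃ c ∈ B w, Sees (⋃ u, (B u : Set (ℝ × ℝ))) b c)

/-- The unit bar visibility number. -/
noncomputable def ub {V : Type*} (G : SimpleGraph V) : ℕ :=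
  sInf {t | ∃ B, IsUnitBarRep G t B}

/-- `S` is a simple arc in the plane from `a` to `b`: the image of `[0, 1]` under an injective
continuous map taking `0` to `a` and `1` to `b`. -/
def IsArc (S : Set (ℝ × ℝ)) (a b : ℝ × ℝ) : Prop :=
  ∃ c : ℝ → ℝ × ℝ, ContinuousOn c (Set.Icc 0 1) ∧ Set.InjOn c (Set.Icc 0 1) ∧
    c 0 = a ∧ c 1 = b ∧ c '' Set.Icc 0 1 = S

/-- `G` is planar: it has a drawing in the plane in which the vertices are distinct points, every
edge is a simple arc joining its two ends, no arc passes through a vertex other than its ends, and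
two different arcs meet only in common ends. -/
def IsPlanar {V : Type*} (G : SimpleGraph V) : Prop :=
  ∃ (f : V → ℝ × ℝ) (arc : Sym2 V → Set (ℝ × ℝ)), Function.Injective f ∧
    (∀ u v, G.Adj u v → IsArc (arc s(u, v)) (f u) (f v)) ∧
    (∀ e ∈ G.edgeSet, ∀ w, f w ∈ arc e → w ∈ e) ∧
    (∀ e ∈ G.edgeSet, ∀ e' ∈ G.edgeSet, e ≠ e' → ∀ z ∈ arc e ∩ arc e',
      ∃ w, w ∈ e ∧ w ∈ e' ∧ f w = z)

/-! ## Layouts of unit bars -/

section layout

/-- Visibility inside a family of closed unit bars given by their left endpoints. -/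
def SeesI {ι : Type} (pos : ι → ℝ × ℝ) (i j : ι) : Prop :=
  ∃ p q : ℝ, p < q ∧ (pos i).1 ≤ p ∧ q ≤ (pos i).1 + 1 ∧ (pos j).1 ≤ p ∧ q ≤ (pos j).1 + 1 ∧
    ∀ k, k ≠ i → k ≠ j → ¬ ((pos k).1 ≤ q ∧ p ≤ (pos k).1 + 1 ∧
      min (pos i).2 (pos j).2 ≤ (pos k).2 ∧ (pos k).2 ≤ max (pos i).2 (pos j).2)

/-- The bars of the family are pairwise disjoint. -/
def DisjI {ι : Type} (pos : ι → ℝ × ℝ) : Prop :=
  ∀ i j, i ≠ j → ¬ ((pos i).2 = (pos j).2 ∧ (pos i).1 ≤ (pos j).1 + 1 ∧ (pos j).1 ≤ (pos i).1 + 1)

/-- The arcs in `S` (as unordered pairs) are exactly the visibilities of some family of bars with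
owners, in which `v` owns at most `t v` bars. -/
def RepArcs {V : Type*} (S : Set (V × V)) (t : V → ℕ) : Prop :=
  ∃ (ι : Type) (_ : Fintype ι) (pos : ι → ℝ × ℝ) (own : ι → V), DisjI pos ∧
    (∀ v w, v ≠ w → (((v, w) ∈ S ∨ (w, v) ∈ S) ↔ ∃ i j, own i = v ∧ own j = w ∧ SeesI pos i j)) ∧
    ∀ v, Nat.card {i // own i = v} ≤ t v

lemma SeesI.symm {ι : Type} {pos : ι → ℝ × ℝ} {i j : ι} (h : SeesI pos i j) : SeesI pos j i := by
  obtain ⟨p, q, h1, h2, h3, h4, h5, h6⟩ := h
  refine ⟨p, q, h1, h4, h5, h2, h3, ?_⟩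
  intro k hk1 hk2
  have := h6 k hk2 hk1
  rwa [min_comm (pos j).2, max_comm (pos j).2]

lemma seesI_comm {ι : Type} {pos : ι → ℝ × ℝ} {i j : ι} : SeesI pos i j ↔ SeesI pos j i :=
  ⟨SeesI.symm, SeesI.symm⟩

/-- A bar horizontally and vertically between two others blocks them. -/
lemma not_seesI_of_block {ι : Type} {pos : ι → ℝ × ℝ} {i j : ι} (k : ι) (hi : k ≠ i) (hj : k ≠ j)
    (h1 : min (pos i).1 (pos j).1 ≤ (pos k).1) (h2 : (pos k).1 ≤ max (pos i).1 (pos j).1)
    (h3 : min (pos i).2 (pos j).2 ≤ (pos k).2) (h4 : (pos k).2 ≤ max (pos i).2 (pos j).2) :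
    ¬ SeesI pos i j := by
  rintro ⟨p, q, g1, g2, g3, g4, g5, g6⟩
  apply g6 k hi hj
  refine ⟨?_, ?_, h3, h4⟩
  · have : max (pos i).1 (pos j).1 ≤ p := max_le g2 g4
    linarith
  · have : q ≤ min (pos i).1 (pos j).1 + 1 := by
      rcases min_choice (pos i).1 (pos j).1 with h | h <;> rw [h] <;> assumption
    linarith

lemma repArcs_mono {V : Type*} {S : Set (V × V)} {t t' : V → ℕ} (h : RepArcs S t)
    (htt : ∀ v, t v ≤ t' v) : RepArcs S t' := by
  obtain ⟨ι, fι, pos, own, h1, h2, h3⟩ := h
  exact ⟨ι, fι, pos, own, h1, h2, fun v => (h3 v).trans (htt v)⟩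

lemma repArcs_congr {V : Type*} {S S' : Set (V × V)} {t : V → ℕ} (h : RepArcs S t)
    (hSS : S = S') : RepArcs S' t := hSS ▸ h

lemma repArcs_empty {V : Type*} : RepArcs (∅ : Set (V × V)) (fun _ => 0) := by
  refine ⟨Empty, inferInstance, fun e => e.elim, fun e => e.elim, fun i => i.elim, ?_, ?_⟩
  · intro v w _
    simp
  · intro v
    simp

/-- Two representations can be placed side by side. -/
lemma repArcs_union {V : Type*} {S₁ S₂ : Set (V × V)} {t₁ t₂ : V → ℕ} (h₁ : RepArcs S₁ t₁)
    (h₂ : RepArcs S₂ t₂) : RepArcs (S₁ ∪ S₂) (fun v => t₁ v + t₂ v) := by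
  classical
  obtain ⟨ι₁, f₁, pos₁, own₁, d₁, a₁, c₁⟩ := h₁
  obtain ⟨ι₂, f₂, pos₂, own₂, d₂, a₂, c₂⟩ := h₂
  obtain ⟨M₁, hM₁⟩ := (Set.finite_range (fun i => (pos₁ i).1)).bddAbove
  obtain ⟨M₂, hM₂⟩ := (Set.finite_range (fun i => (pos₂ i).1)).bddBelow
  have hM₁ : ∀ i, (pos₁ i).1 ≤ M₁ := fun i => hM₁ ⟨i, rfl⟩
  have hM₂ : ∀ i, M₂ ≤ (pos₂ i).1 := fun i => hM₂ ⟨i, rfl⟩
  let X : ℝ := M₁ - M₂ + 3
  let pos : ι₁ ⊕ ι₂ → ℝ × ℝ := Sum.elim pos₁ (fun j => ((pos₂ j).1 + X, (pos₂ j).2))
  have hcross : ∀ i j, ¬ SeesI pos (Sum.inl i) (Sum.inr j) := by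
    rintro i j ⟨p, q, h1, h2, h3, h4, h5, -⟩
    simp only [pos, Sum.elim_inl, Sum.elim_inr, X] at h2 h3 h4 h5
    have := hM₁ i
    have := hM₂ j
    linarith
  have h11 : ∀ i j, SeesI pos (Sum.inl i) (Sum.inl j) ↔ SeesI pos₁ i j := by
    intro i j
    constructor
    · rintro ⟨p, q, h1, h2, h3, h4, h5, h6⟩
      refine ⟨p, q, h1, h2, h3, h4, h5, ?_⟩
      intro k hk1 hk2
      exact h6 (Sum.inl k) (by simpa using hk1) (by simpa using hk2)
    · rintro ⟨p, q, h1, h2, h3, h4, h5, h6⟩
      refine ⟨p, q, h1, h2, h3, h4, h5, ?_⟩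
      rintro (k | k) hk1 hk2
      · exact h6 k (by simpa using hk1) (by simpa using hk2)
      · rintro ⟨g1, g2, -, -⟩
        simp only [pos, Sum.elim_inr, X] at g1
        have := hM₁ i
        have := hM₂ k
        linarith
  have h22 : ∀ i j, SeesI pos (Sum.inr i) (Sum.inr j) ↔ SeesI pos₂ i j := by
    intro i j
    constructor
    · rintro ⟨p, q, h1, h2, h3, h4, h5, h6⟩
      simp only [pos, Sum.elim_inr] at h2 h3 h4 h5
      refine ⟨p - X, q - X, by linarith, by linarith, by linarith, by linarith, by linarith, ?_⟩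
      rintro k hk1 hk2 ⟨g1, g2, g3, g4⟩
      refine h6 (Sum.inr k) (by simpa using hk1) (by simpa using hk2) ⟨?_, ?_, g3, g4⟩
      · simp only [pos, Sum.elim_inr]; linarith
      · simp only [pos, Sum.elim_inr]; linarith
    · rintro ⟨p, q, h1, h2, h3, h4, h5, h6⟩
      refine ⟨p + X, q + X, by linarith, ?_, ?_, ?_, ?_, ?_⟩
      · simp only [pos, Sum.elim_inr]; linarith
      · simp only [pos, Sum.elim_inr]; linarith
      · simp only [pos, Sum.elim_inr]; linarith
      · simp only [pos, Sum.elim_inr]; linarith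
      rintro (k | k) hk1 hk2
      · rintro ⟨g1, g2, -, -⟩
        simp only [pos, Sum.elim_inl, X] at g2
        have := hM₁ k
        have := hM₂ i
        linarith
      · rintro ⟨g1, g2, g3, g4⟩
        simp only [pos, Sum.elim_inr] at g1 g2
        exact h6 k (by simpa using hk1) (by simpa using hk2)
          ⟨by linarith, by linarith, g3, g4⟩
  refine ⟨ι₁ ⊕ ι₂, inferInstance, pos, Sum.elim own₁ own₂, ?_, ?_, ?_⟩
  · rintro (i | i) (j | j) hij ⟨g1, g2, g3⟩
    · exact d₁ i j (by simpa using hij) ⟨g1, g2, g3⟩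
    · simp only [pos, Sum.elim_inl, Sum.elim_inr, X] at g3
      have := hM₁ i
      have := hM₂ j
      linarith
    · simp only [pos, Sum.elim_inl, Sum.elim_inr, X] at g2
      have := hM₁ j
      have := hM₂ i
      linarith
    · simp only [pos, Sum.elim_inr] at g1 g2 g3
      exact d₂ i j (by simpa using hij) ⟨g1, by linarith, by linarith⟩
  · intro v w hvw
    have e₁ := a₁ v w hvw
    have e₂ := a₂ v w hvw
    constructor
    · intro h
      have h' : ((v, w) ∈ S₁ ∨ (w, v) ∈ S₁) ∨ ((v, w) ∈ S₂ ∨ (w, v) ∈ S₂) := by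
        rcases h with (h | h) | (h | h)
        · exact Or.inl (Or.inl h)
        · exact Or.inr (Or.inl h)
        · exact Or.inl (Or.inr h)
        · exact Or.inr (Or.inr h)
      rcases h' with h | h
      · obtain ⟨i, j, hi, hj, hs⟩ := e₁.1 h
        exact ⟨Sum.inl i, Sum.inl j, hi, hj, (h11 i j).2 hs⟩
      · obtain ⟨i, j, hi, hj, hs⟩ := e₂.1 h
        exact ⟨Sum.inr i, Sum.inr j, hi, hj, (h22 i j).2 hs⟩
    · rintro ⟨i | i, j | j, hi, hj, hs⟩
      · rcases e₁.2 ⟨i, j, hi, hj, (h11 i j).1 hs⟩ with h | h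
        · exact Or.inl (Or.inl h)
        · exact Or.inr (Or.inl h)
      · exact absurd hs (hcross i j)
      · exact absurd hs.symm (hcross j i)
      · rcases e₂.2 ⟨i, j, hi, hj, (h22 i j).1 hs⟩ with h | h
        · exact Or.inl (Or.inr h)
        · exact Or.inr (Or.inr h)
  · intro v
    have : Nat.card {k : ι₁ ⊕ ι₂ // Sum.elim own₁ own₂ k = v}
        = Nat.card {i // own₁ i = v} + Nat.card {i // own₂ i = v} := by
      rw [Nat.card_congr (Equiv.subtypeSum (p := fun k => Sum.elim own₁ own₂ k = v)),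
        Nat.card_sum]
      rfl
    rw [this]
    exact Nat.add_le_add (c₁ v) (c₂ v)

/-- The arcs of a list of vertices. -/
def arcsOf {V : Type*} (l : List V) : Set (V × V) :=
  {a | ∃ i, ∃ h : i + 1 < l.length, a = (l[i], l[i + 1])}

section spider

variable {V : Type*}

/-- Positions of the bars of a spider. -/
noncomputable def spos (n₁ n₂ n₃ : ℕ) : Fin n₁ ⊕ (Fin n₂ ⊕ Fin n₃) → ℝ × ℝ
  | Sum.inl i => (0, (i : ℕ))
  | Sum.inr (Sum.inl i) => (-1/2, (n₁ : ℝ) + n₂ - 1 - (i : ℕ))
  | Sum.inr (Sum.inr i) => (3/4, (n₁ : ℝ) + n₃ - 1 - (i : ℕ))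

variable {n₁ n₂ n₃ : ℕ}

lemma sees_11 {i j : Fin n₁} (hne : i ≠ j) : SeesI (spos n₁ n₂ n₃) (Sum.inl i) (Sum.inl j) ↔
    ((i : ℕ) + 1 = j ∨ (j : ℕ) + 1 = i) := by
  -- by symmetry treat `i < j`
  have main : ∀ i j : Fin n₁, i < j → (SeesI (spos n₁ n₂ n₃) (Sum.inl i) (Sum.inl j) ↔
      ((i : ℕ) + 1 = j)) := by
    intro i j hij
    have hij' : (i : ℕ) < j := hij
    constructor
    · intro hs
      by_contra hcon
      have h2 : (i : ℕ) + 1 < j := by omega
      have hk : (i : ℕ) + 1 < n₁ := by omega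
      refine not_seesI_of_block (Sum.inl ⟨i + 1, hk⟩) ?_ ?_ ?_ ?_ ?_ ?_ hs
      · simp [Fin.ext_iff]
      · simp [Fin.ext_iff]; omega
      · simp [spos]
      · simp [spos]
      · simp [spos]
      · have : ((i : ℕ) : ℝ) + 1 ≤ (j : ℕ) := by exact_mod_cast h2.le
        simp [spos, this]
    · intro h
      have hij1 : ((j : ℕ) : ℝ) = (i : ℕ) + 1 := by exact_mod_cast h.symm
      refine ⟨0, 1, by norm_num, by simp [spos], by simp [spos], by simp [spos],
        by simp [spos], ?_⟩
      rintro (k | k | k) hk1 hk2 ⟨g1, g2, g3, g4⟩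
      · simp only [spos, hij1] at g3 g4
        rw [min_eq_left (by linarith)] at g3
        rw [max_eq_right (by linarith)] at g4
        have e1 : (i : ℕ) ≤ k := by exact_mod_cast g3
        have e2 : (k : ℕ) ≤ i + 1 := by exact_mod_cast g4
        have : (k : ℕ) = i ∨ (k : ℕ) = j := by omega
        rcases this with h' | h'
        · exact hk1 (by rw [Fin.ext h'])
        · exact hk2 (by rw [Fin.ext h'])
      · simp only [spos, hij1] at g3 g4
        rw [max_eq_right (by linarith)] at g4
        have e1 : (j : ℕ) + 1 ≤ n₁ := j.2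
        have e2 : (k : ℕ) + 1 ≤ n₂ := k.2
        have e1' : ((j : ℕ) : ℝ) + 1 ≤ n₁ := by exact_mod_cast e1
        have e2' : ((k : ℕ) : ℝ) + 1 ≤ n₂ := by exact_mod_cast e2
        linarith
      · simp only [spos, hij1] at g3 g4
        rw [max_eq_right (by linarith)] at g4
        have e1 : (j : ℕ) + 1 ≤ n₁ := j.2
        have e2 : (k : ℕ) + 1 ≤ n₃ := k.2
        have e1' : ((j : ℕ) : ℝ) + 1 ≤ n₁ := by exact_mod_cast e1
        have e2' : ((k : ℕ) : ℝ) + 1 ≤ n₃ := by exact_mod_cast e2
        linarith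
  rcases lt_or_gt_of_ne hne with h | h
  · rw [main i j h]
    have h' : (i : ℕ) < j := h
    constructor
    · intro h; exact Or.inl h
    · rintro (h | h)
      · exact h
      · omega
  · rw [seesI_comm, main j i h]
    have h' : (j : ℕ) < i := h
    constructor
    · intro h; exact Or.inr h
    · rintro (h | h)
      · omega
      · exact h

lemma sees_22 {i j : Fin n₂} (hne : i ≠ j) :
    SeesI (spos n₁ n₂ n₃) (Sum.inr (Sum.inl i)) (Sum.inr (Sum.inl j)) ↔
    ((i : ℕ) + 1 = j ∨ (j : ℕ) + 1 = i) := by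
  have main : ∀ i j : Fin n₂, i < j →
      (SeesI (spos n₁ n₂ n₃) (Sum.inr (Sum.inl i)) (Sum.inr (Sum.inl j)) ↔
      ((i : ℕ) + 1 = j)) := by
    intro i j hij
    have hij' : (i : ℕ) < j := hij
    have hijR : ((i : ℕ) : ℝ) < (j : ℕ) := by exact_mod_cast hij'
    constructor
    · intro hs
      by_contra hcon
      have h2 : (i : ℕ) + 1 < j := by omega
      have hk : (i : ℕ) + 1 < n₂ := by omega
      have h2R : ((i : ℕ) : ℝ) + 1 ≤ (j : ℕ) := by exact_mod_cast h2.le
      refine not_seesI_of_block (Sum.inr (Sum.inl ⟨i + 1, hk⟩)) ?_ ?_ ?_ ?_ ?_ ?_ hs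
      · simp [Fin.ext_iff]
      · simp [Fin.ext_iff]; omega
      · simp [spos]
      · simp [spos]
      · simp only [spos]
        rw [min_eq_right (by linarith)]
        push_cast
        linarith
      · simp only [spos]
        rw [max_eq_left (by linarith)]
        push_cast
        linarith
    · intro h
      have hij1 : ((j : ℕ) : ℝ) = (i : ℕ) + 1 := by exact_mod_cast h.symm
      refine ⟨-1/2, 1/2, by norm_num, by norm_num [spos], by norm_num [spos], by norm_num [spos],
        by norm_num [spos], ?_⟩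
      rintro (k | k | k) hk1 hk2 ⟨g1, g2, g3, g4⟩
      · simp only [spos, hij1] at g3 g4
        rw [min_eq_right (by linarith)] at g3
        have e1 : (j : ℕ) + 1 ≤ n₂ := j.2
        have e2 : (k : ℕ) + 1 ≤ n₁ := k.2
        have e1' : ((j : ℕ) : ℝ) + 1 ≤ n₂ := by exact_mod_cast e1
        have e2' : ((k : ℕ) : ℝ) + 1 ≤ n₁ := by exact_mod_cast e2
        linarith
      · simp only [spos, hij1] at g3 g4
        rw [min_eq_right (by linarith)] at g3
        rw [max_eq_left (by linarith)] at g4
        have g3' : ((k : ℕ) : ℝ) ≤ (i : ℕ) + 1 := by linarith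
        have g4' : ((i : ℕ) : ℝ) ≤ (k : ℕ) := by linarith
        have e1 : (i : ℕ) ≤ k := by exact_mod_cast g4'
        have e2 : (k : ℕ) ≤ i + 1 := by exact_mod_cast g3'
        have : (k : ℕ) = i ∨ (k : ℕ) = j := by omega
        rcases this with h' | h'
        · exact hk1 (by rw [Fin.ext h'])
        · exact hk2 (by rw [Fin.ext h'])
      · simp only [spos] at g1
        norm_num at g1
  rcases lt_or_gt_of_ne hne with h | h
  · rw [main i j h]
    have h' : (i : ℕ) < j := h
    constructor
    · intro h; exact Or.inl h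
    · rintro (h | h)
      · exact h
      · omega
  · rw [seesI_comm, main j i h]
    have h' : (j : ℕ) < i := h
    constructor
    · intro h; exact Or.inr h
    · rintro (h | h)
      · omega
      · exact h

lemma sees_33 {i j : Fin n₃} (hne : i ≠ j) :
    SeesI (spos n₁ n₂ n₃) (Sum.inr (Sum.inr i)) (Sum.inr (Sum.inr j)) ↔
    ((i : ℕ) + 1 = j ∨ (j : ℕ) + 1 = i) := by
  have main : ∀ i j : Fin n₃, i < j →
      (SeesI (spos n₁ n₂ n₃) (Sum.inr (Sum.inr i)) (Sum.inr (Sum.inr j)) ↔
      ((i : ℕ) + 1 = j)) := by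
    intro i j hij
    have hij' : (i : ℕ) < j := hij
    have hijR : ((i : ℕ) : ℝ) < (j : ℕ) := by exact_mod_cast hij'
    constructor
    · intro hs
      by_contra hcon
      have h2 : (i : ℕ) + 1 < j := by omega
      have hk : (i : ℕ) + 1 < n₃ := by omega
      have h2R : ((i : ℕ) : ℝ) + 1 ≤ (j : ℕ) := by exact_mod_cast h2.le
      refine not_seesI_of_block (Sum.inr (Sum.inr ⟨i + 1, hk⟩)) ?_ ?_ ?_ ?_ ?_ ?_ hs
      · simp [Fin.ext_iff]
      · simp [Fin.ext_iff]; omega
      · simp [spos]
      · simp [spos]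
      · simp only [spos]
        rw [min_eq_right (by linarith)]
        push_cast
        linarith
      · simp only [spos]
        rw [max_eq_left (by linarith)]
        push_cast
        linarith
    · intro h
      have hij1 : ((j : ℕ) : ℝ) = (i : ℕ) + 1 := by exact_mod_cast h.symm
      refine ⟨3/4, 7/4, by norm_num, by norm_num [spos], by norm_num [spos], by norm_num [spos],
        by norm_num [spos], ?_⟩
      rintro (k | k | k) hk1 hk2 ⟨g1, g2, g3, g4⟩
      · simp only [spos, hij1] at g3 g4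
        rw [min_eq_right (by linarith)] at g3
        have e1 : (j : ℕ) + 1 ≤ n₃ := j.2
        have e2 : (k : ℕ) + 1 ≤ n₁ := k.2
        have e1' : ((j : ℕ) : ℝ) + 1 ≤ n₃ := by exact_mod_cast e1
        have e2' : ((k : ℕ) : ℝ) + 1 ≤ n₁ := by exact_mod_cast e2
        linarith
      · simp only [spos] at g2
        norm_num at g2
      · simp only [spos, hij1] at g3 g4
        rw [min_eq_right (by linarith)] at g3
        rw [max_eq_left (by linarith)] at g4
        have g3' : ((k : ℕ) : ℝ) ≤ (i : ℕ) + 1 := by linarith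
        have g4' : ((i : ℕ) : ℝ) ≤ (k : ℕ) := by linarith
        have e1 : (i : ℕ) ≤ k := by exact_mod_cast g4'
        have e2 : (k : ℕ) ≤ i + 1 := by exact_mod_cast g3'
        have : (k : ℕ) = i ∨ (k : ℕ) = j := by omega
        rcases this with h' | h'
        · exact hk1 (by rw [Fin.ext h'])
        · exact hk2 (by rw [Fin.ext h'])
  rcases lt_or_gt_of_ne hne with h | h
  · rw [main i j h]
    have h' : (i : ℕ) < j := h
    constructor
    · intro h; exact Or.inl h
    · rintro (h | h)
      · exact h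
      · omega
  · rw [seesI_comm, main j i h]
    have h' : (j : ℕ) < i := h
    constructor
    · intro h; exact Or.inr h
    · rintro (h | h)
      · omega
      · exact h

lemma sees_12 (i : Fin n₁) (j : Fin n₂) :
    SeesI (spos n₁ n₂ n₃) (Sum.inl i) (Sum.inr (Sum.inl j)) ↔
    ((i : ℕ) + 1 = n₁ ∧ (j : ℕ) + 1 = n₂) := by
  have hi : (i : ℕ) + 1 ≤ n₁ := i.2
  have hj : (j : ℕ) + 1 ≤ n₂ := j.2
  have hiR : ((i : ℕ) : ℝ) + 1 ≤ n₁ := by exact_mod_cast hi
  have hjR : ((j : ℕ) : ℝ) + 1 ≤ n₂ := by exact_mod_cast hj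
  constructor
  · intro hs
    by_contra hcon
    by_cases h1 : (i : ℕ) + 1 = n₁
    · have h2 : (j : ℕ) + 1 ≠ n₂ := fun h => hcon ⟨h1, h⟩
      have hn : 0 < n₂ := by omega
      have hk : n₂ - 1 < n₂ := by omega
      have hcast : ((n₂ - 1 : ℕ) : ℝ) = (n₂ : ℝ) - 1 := by
        rw [Nat.cast_sub (by omega)]; simp
      have h1R : ((i : ℕ) : ℝ) + 1 = n₁ := by exact_mod_cast h1
      refine not_seesI_of_block (Sum.inr (Sum.inl ⟨n₂ - 1, hk⟩)) ?_ ?_ ?_ ?_ ?_ ?_ hs
      · simp
      · simp [Fin.ext_iff]; omega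
      · norm_num [spos]
      · norm_num [spos]
      · simp only [spos, hcast]
        rw [min_eq_left (by linarith)]
        linarith
      · simp only [spos, hcast]
        rw [max_eq_right (by linarith)]
        linarith
    · have hk : n₁ - 1 < n₁ := by omega
      have hcast : ((n₁ - 1 : ℕ) : ℝ) = (n₁ : ℝ) - 1 := by
        rw [Nat.cast_sub (by omega)]; simp
      refine not_seesI_of_block (Sum.inl ⟨n₁ - 1, hk⟩) ?_ ?_ ?_ ?_ ?_ ?_ hs
      · simp [Fin.ext_iff]; omega
      · simp
      · norm_num [spos]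
      · norm_num [spos]
      · simp only [spos, hcast]
        rw [min_eq_left (by linarith)]
        linarith
      · simp only [spos, hcast]
        rw [max_eq_right (by linarith)]
        linarith
  · rintro ⟨h1, h2⟩
    have h1R : ((i : ℕ) : ℝ) + 1 = n₁ := by exact_mod_cast h1
    have h2R : ((j : ℕ) : ℝ) + 1 = n₂ := by exact_mod_cast h2
    refine ⟨0, 1/4, by norm_num, by norm_num [spos], by norm_num [spos], by norm_num [spos],
        by norm_num [spos], ?_⟩
    rintro (k | k | k) hk1 hk2 ⟨g1, g2, g3, g4⟩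
    · simp only [spos] at g3 g4
      rw [min_eq_left (by linarith)] at g3
      have e1 : (i : ℕ) ≤ k := by exact_mod_cast g3
      have e2 := k.2
      exact hk1 (by rw [Fin.ext (show (k : ℕ) = i by omega)])
    · simp only [spos] at g3 g4
      rw [max_eq_right (by linarith)] at g4
      have g4' : ((j : ℕ) : ℝ) ≤ (k : ℕ) := by linarith
      have e1 : (j : ℕ) ≤ k := by exact_mod_cast g4'
      have e2 := k.2
      exact hk2 (by rw [Fin.ext (show (k : ℕ) = j by omega)])
    · simp only [spos] at g1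
      norm_num at g1

lemma sees_13 (i : Fin n₁) (j : Fin n₃) :
    SeesI (spos n₁ n₂ n₃) (Sum.inl i) (Sum.inr (Sum.inr j)) ↔
    ((i : ℕ) + 1 = n₁ ∧ (j : ℕ) + 1 = n₃) := by
  have hi : (i : ℕ) + 1 ≤ n₁ := i.2
  have hj : (j : ℕ) + 1 ≤ n₃ := j.2
  have hiR : ((i : ℕ) : ℝ) + 1 ≤ n₁ := by exact_mod_cast hi
  have hjR : ((j : ℕ) : ℝ) + 1 ≤ n₃ := by exact_mod_cast hj
  constructor
  · intro hs
    by_contra hcon
    by_cases h1 : (i : ℕ) + 1 = n₁
    · have h2 : (j : ℕ) + 1 ≠ n₃ := fun h => hcon ⟨h1, h⟩
      have hn : 0 < n₃ := by omega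
      have hk : n₃ - 1 < n₃ := by omega
      have hcast : ((n₃ - 1 : ℕ) : ℝ) = (n₃ : ℝ) - 1 := by
        rw [Nat.cast_sub (by omega)]; simp
      have h1R : ((i : ℕ) : ℝ) + 1 = n₁ := by exact_mod_cast h1
      refine not_seesI_of_block (Sum.inr (Sum.inr ⟨n₃ - 1, hk⟩)) ?_ ?_ ?_ ?_ ?_ ?_ hs
      · simp
      · simp [Fin.ext_iff]; omega
      · norm_num [spos]
      · norm_num [spos]
      · simp only [spos, hcast]
        rw [min_eq_left (by linarith)]
        linarith
      · simp only [spos, hcast]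
        rw [max_eq_right (by linarith)]
        linarith
    · have hk : n₁ - 1 < n₁ := by omega
      have hcast : ((n₁ - 1 : ℕ) : ℝ) = (n₁ : ℝ) - 1 := by
        rw [Nat.cast_sub (by omega)]; simp
      refine not_seesI_of_block (Sum.inl ⟨n₁ - 1, hk⟩) ?_ ?_ ?_ ?_ ?_ ?_ hs
      · simp [Fin.ext_iff]; omega
      · simp
      · norm_num [spos]
      · norm_num [spos]
      · simp only [spos, hcast]
        rw [min_eq_left (by linarith)]
        linarith
      · simp only [spos, hcast]
        rw [max_eq_right (by linarith)]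
        linarith
  · rintro ⟨h1, h2⟩
    have h1R : ((i : ℕ) : ℝ) + 1 = n₁ := by exact_mod_cast h1
    have h2R : ((j : ℕ) : ℝ) + 1 = n₃ := by exact_mod_cast h2
    refine ⟨3/4, 1, by norm_num, by norm_num [spos], by norm_num [spos], by norm_num [spos],
        by norm_num [spos], ?_⟩
    rintro (k | k | k) hk1 hk2 ⟨g1, g2, g3, g4⟩
    · simp only [spos] at g3 g4
      rw [min_eq_left (by linarith)] at g3
      have e1 : (i : ℕ) ≤ k := by exact_mod_cast g3
      have e2 := k.2
      exact hk1 (by rw [Fin.ext (show (k : ℕ) = i by omega)])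
    · simp only [spos] at g2
      norm_num at g2
    · simp only [spos] at g3 g4
      rw [max_eq_right (by linarith)] at g4
      have g4' : ((j : ℕ) : ℝ) ≤ (k : ℕ) := by linarith
      have e1 : (j : ℕ) ≤ k := by exact_mod_cast g4'
      have e2 := k.2
      exact hk2 (by rw [Fin.ext (show (k : ℕ) = j by omega)])

lemma sees_23 (i : Fin n₂) (j : Fin n₃) :
    ¬ SeesI (spos n₁ n₂ n₃) (Sum.inr (Sum.inl i)) (Sum.inr (Sum.inr j)) := by
  rintro ⟨p, q, h1, h2, h3, h4, h5, -⟩
  simp only [spos] at h2 h3 h4 h5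
  linarith

lemma disj_spos : DisjI (spos n₁ n₂ n₃) := by
  rintro (i | i | i) (j | j | j) hij ⟨g1, g2, g3⟩
  · simp only [spos] at g1
    have : (i : ℕ) = j := by exact_mod_cast g1
    exact hij (by rw [Fin.ext this])
  · simp only [spos] at g1
    have e1' : ((i : ℕ) : ℝ) + 1 ≤ n₁ := by exact_mod_cast i.2
    have e2' : ((j : ℕ) : ℝ) + 1 ≤ n₂ := by exact_mod_cast j.2
    linarith
  · simp only [spos] at g1
    have e1' : ((i : ℕ) : ℝ) + 1 ≤ n₁ := by exact_mod_cast i.2
    have e2' : ((j : ℕ) : ℝ) + 1 ≤ n₃ := by exact_mod_cast j.2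
    linarith
  · simp only [spos] at g1
    have e1' : ((i : ℕ) : ℝ) + 1 ≤ n₂ := by exact_mod_cast i.2
    have e2' : ((j : ℕ) : ℝ) + 1 ≤ n₁ := by exact_mod_cast j.2
    linarith
  · simp only [spos] at g1
    have : ((i : ℕ) : ℝ) = (j : ℕ) := by linarith
    have : (i : ℕ) = j := by exact_mod_cast this
    exact hij (by rw [Fin.ext this])
  · simp only [spos] at g3
    norm_num at g3
  · simp only [spos] at g1
    have e1' : ((i : ℕ) : ℝ) + 1 ≤ n₃ := by exact_mod_cast i.2
    have e2' : ((j : ℕ) : ℝ) + 1 ≤ n₁ := by exact_mod_cast j.2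
    linarith
  · simp only [spos] at g2
    norm_num at g2
  · simp only [spos] at g1
    have : ((i : ℕ) : ℝ) = (j : ℕ) := by linarith
    have : (i : ℕ) = j := by exact_mod_cast this
    exact hij (by rw [Fin.ext this])

end spider

section

variable {V : Type*}

lemma card_getElem_eq_count [DecidableEq V] (l : List V) (v : V) :
    Nat.card {i : Fin l.length // l[(i : ℕ)] = v} = l.count v := by
  classical
  rw [Nat.card_eq_fintype_card, Fintype.card_subtype, Finset.card_filter]
  rw [Fin.sum_univ_fun_getElem l (fun w => if w = v then 1 else 0)]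
  induction l with
  | nil => simp
  | cons a l ih =>
    simp only [List.map_cons, List.sum_cons, ih, List.count_cons, beq_iff_eq]
    omega

lemma repArcs_spider [DecidableEq V] (u : V) (l₁ l₂ l₃ : List V)
    (h₁ : l₁.getLast? = some u) (h₂ : l₂.getLast? = some u) (h₃ : l₃.getLast? = some u) :
    RepArcs (arcsOf l₁ ∪ arcsOf l₂ ∪ arcsOf l₃)
      (fun v => l₁.count v + (l₂.dropLast.count v + l₃.dropLast.count v)) := by
  classical
  have e₁ : l₁ ≠ [] := by rintro rfl; simp at h₁
  have e₂ : l₂ ≠ [] := by rintro rfl; simp at h₂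
  have e₃ : l₃ ≠ [] := by rintro rfl; simp at h₃
  have p₁ : 0 < l₁.length := List.length_pos_iff.2 e₁
  have p₂ : 0 < l₂.length := List.length_pos_iff.2 e₂
  have p₃ : 0 < l₃.length := List.length_pos_iff.2 e₃
  have g₁ : l₁[l₁.length - 1] = u := by
    rw [List.getLast?_eq_some_getLast e₁, Option.some_inj, List.getLast_eq_getElem] at h₁
    exact h₁
  have g₂ : l₂[l₂.length - 1] = u := by
    rw [List.getLast?_eq_some_getLast e₂, Option.some_inj, List.getLast_eq_getElem] at h₂
    exact h₂
  have g₃ : l₃[l₃.length - 1] = u := by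
    rw [List.getLast?_eq_some_getLast e₃, Option.some_inj, List.getLast_eq_getElem] at h₃
    exact h₃
  let n₁ := l₁.length
  let n₂ := l₂.dropLast.length
  let n₃ := l₃.dropLast.length
  let own : Fin n₁ ⊕ (Fin n₂ ⊕ Fin n₃) → V := Sum.elim (fun i => l₁[(i : ℕ)])
    (Sum.elim (fun i => l₂.dropLast[(i : ℕ)]) (fun i => l₃.dropLast[(i : ℕ)]))
  have q₂ : n₂ = l₂.length - 1 := List.length_dropLast
  have q₃ : n₃ = l₃.length - 1 := List.length_dropLast
  have fwd : ∀ v w, v ≠ w → (v, w) ∈ arcsOf l₁ ∪ arcsOf l₂ ∪ arcsOf l₃ →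
      ∃ i j, own i = v ∧ own j = w ∧ SeesI (spos n₁ n₂ n₃) i j := by
    intro v w hvw hS
    rcases hS with (⟨i, hi, hS⟩ | ⟨i, hi, hS⟩) | ⟨i, hi, hS⟩
    · rw [Prod.mk.injEq] at hS
      refine ⟨Sum.inl ⟨i, by omega⟩, Sum.inl ⟨i + 1, hi⟩, hS.1.symm, hS.2.symm, ?_⟩
      rw [sees_11 (by simp [Fin.ext_iff])]
      left; rfl
    · rw [Prod.mk.injEq] at hS
      by_cases hc : i + 1 < n₂
      · refine ⟨Sum.inr (Sum.inl ⟨i, by omega⟩), Sum.inr (Sum.inl ⟨i + 1, hc⟩), ?_, ?_, ?_⟩
        · rw [hS.1]; simp [own]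
        · rw [hS.2]; simp [own]
        rw [sees_22 (by simp [Fin.ext_iff])]
        left; rfl
      · have hi2 : i + 1 = n₂ := by omega
        refine ⟨Sum.inr (Sum.inl ⟨i, by omega⟩), Sum.inl ⟨l₁.length - 1, by omega⟩, ?_, ?_, ?_⟩
        · rw [hS.1]; simp [own]
        · rw [hS.2]
          simp only [own, Sum.elim_inl]
          rw [g₁, ← g₂]
          congr 1
          omega
        rw [seesI_comm, sees_12]
        exact ⟨by simp only [n₁]; omega, hi2⟩
    · rw [Prod.mk.injEq] at hS
      by_cases hc : i + 1 < n₃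
      · refine ⟨Sum.inr (Sum.inr ⟨i, by omega⟩), Sum.inr (Sum.inr ⟨i + 1, hc⟩), ?_, ?_, ?_⟩
        · rw [hS.1]; simp [own]
        · rw [hS.2]; simp [own]
        rw [sees_33 (by simp [Fin.ext_iff])]
        left; rfl
      · have hi2 : i + 1 = n₃ := by omega
        refine ⟨Sum.inr (Sum.inr ⟨i, by omega⟩), Sum.inl ⟨l₁.length - 1, by omega⟩, ?_, ?_, ?_⟩
        · rw [hS.1]; simp [own]
        · rw [hS.2]
          simp only [own, Sum.elim_inl]
          rw [g₁, ← g₃]
          congr 1
          omega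
        rw [seesI_comm, sees_13]
        exact ⟨by simp only [n₁]; omega, hi2⟩
  have c12 : ∀ (i : Fin n₁) (j : Fin n₂), SeesI (spos n₁ n₂ n₃) (Sum.inl i) (Sum.inr (Sum.inl j)) →
      (own (Sum.inr (Sum.inl j)), own (Sum.inl i)) ∈ arcsOf l₂ := by
    intro i j hs
    obtain ⟨a, b⟩ := (sees_12 i j).1 hs
    refine ⟨j, by omega, ?_⟩
    rw [Prod.mk.injEq]
    constructor
    · simp [own]
    · simp only [own, Sum.elim_inl]
      have : (i : ℕ) = l₁.length - 1 := by simp only [n₁] at a; omega
      have hj : (j : ℕ) + 1 = l₂.length - 1 := by omega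
      simp only [this, hj, g₁, g₂]
  have c13 : ∀ (i : Fin n₁) (j : Fin n₃), SeesI (spos n₁ n₂ n₃) (Sum.inl i) (Sum.inr (Sum.inr j)) →
      (own (Sum.inr (Sum.inr j)), own (Sum.inl i)) ∈ arcsOf l₃ := by
    intro i j hs
    obtain ⟨a, b⟩ := (sees_13 i j).1 hs
    refine ⟨j, by omega, ?_⟩
    rw [Prod.mk.injEq]
    constructor
    · simp [own]
    · simp only [own, Sum.elim_inl]
      have : (i : ℕ) = l₁.length - 1 := by simp only [n₁] at a; omega
      have hj : (j : ℕ) + 1 = l₃.length - 1 := by omega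
      simp only [this, hj, g₁, g₃]
  refine ⟨Fin n₁ ⊕ (Fin n₂ ⊕ Fin n₃), inferInstance, spos n₁ n₂ n₃, own, disj_spos, ?_, ?_⟩
  · intro v w hvw
    constructor
    · rintro (h | h)
      · exact fwd v w hvw h
      · obtain ⟨i, j, hi, hj, hs⟩ := fwd w v hvw.symm h
        exact ⟨j, i, hj, hi, hs.symm⟩
    · rintro ⟨i | i | i, j | j | j, rfl, rfl, hs⟩
      · have hne : i ≠ j := by rintro rfl; exact hvw rfl
        rcases (sees_11 hne).1 hs with h | h
        · left; left; left
          refine ⟨i, by have := j.2; omega, ?_⟩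
          simp [own, h]
        · right; left; left
          refine ⟨j, by have := i.2; omega, ?_⟩
          simp [own, h]
      · right; left; right
        exact c12 i j hs
      · right; right
        exact c13 i j hs
      · left; left; right
        exact c12 j i hs.symm
      · have hne : i ≠ j := by rintro rfl; exact hvw rfl
        rcases (sees_22 hne).1 hs with h | h
        · left; left; right
          refine ⟨i, by have := j.2; omega, ?_⟩
          simp [own, h]
        · right; left; right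
          refine ⟨j, by have := i.2; omega, ?_⟩
          simp [own, h]
      · exact absurd hs (sees_23 i j)
      · left; right
        exact c13 j i hs.symm
      · exact absurd hs.symm (sees_23 j i)
      · have hne : i ≠ j := by rintro rfl; exact hvw rfl
        rcases (sees_33 hne).1 hs with h | h
        · left; right
          refine ⟨i, by have := j.2; omega, ?_⟩
          simp [own, h]
        · right; right
          refine ⟨j, by have := i.2; omega, ?_⟩
          simp [own, h]
  · intro v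
    have t1 : Nat.card {k : Fin n₁ ⊕ (Fin n₂ ⊕ Fin n₃) // own k = v}
        = Nat.card {i : Fin n₁ // l₁[(i : ℕ)] = v} + (Nat.card {i : Fin n₂ // l₂.dropLast[(i : ℕ)] = v}
          + Nat.card {i : Fin n₃ // l₃.dropLast[(i : ℕ)] = v}) := by
      rw [Nat.card_congr (Equiv.subtypeSum (p := fun k => own k = v)), Nat.card_sum,
        Nat.card_congr (Equiv.subtypeSum (p := fun k => own (Sum.inr k) = v)), Nat.card_sum]
      rfl
    rw [t1, card_getElem_eq_count, card_getElem_eq_count, card_getElem_eq_count]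

/-- Lists with a common last vertex `u`, grouped by three. -/
lemma repArcs_lists [DecidableEq V] (u : V) : ∀ Ls : List (List V),
    (∀ l ∈ Ls, l.getLast? = some u) →
    RepArcs {a | ∃ l ∈ Ls, a ∈ arcsOf l}
      (fun v => (Ls.map (fun l => l.dropLast.count v)).sum +
        if v = u then (Ls.length + 2) / 3 else 0)
  | [], _ => by
    refine repArcs_mono (repArcs_congr repArcs_empty ?_) (fun v => Nat.zero_le _)
    simp
  | [l₁], h => by
    have h₁ := h l₁ (by simp)
    refine repArcs_mono (repArcs_congr (repArcs_spider u l₁ [u] [u] h₁ rfl rfl) ?_) ?_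
    · ext a
      simp [arcsOf]
    · intro v
      have e₁ : l₁ ≠ [] := by rintro rfl; simp at h₁
      have hu : l₁.getLast e₁ = u := by
        rw [List.getLast?_eq_some_getLast e₁, Option.some_inj] at h₁; exact h₁
      have : l₁.count v = l₁.dropLast.count v + if v = u then 1 else 0 := by
        conv_lhs => rw [← List.dropLast_append_getLast e₁, List.count_append, hu]
        rw [List.count_singleton]
        by_cases huv : v = u
        · simp [huv]
        · simp [huv, Ne.symm huv]
      simp [this]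
  | [l₁, l₂], h => by
    have h₁ := h l₁ (by simp)
    have h₂ := h l₂ (by simp)
    refine repArcs_mono (repArcs_congr (repArcs_spider u l₁ l₂ [u] h₁ h₂ rfl) ?_) ?_
    · ext a
      simp [arcsOf]
    · intro v
      have e₁ : l₁ ≠ [] := by rintro rfl; simp at h₁
      have hu : l₁.getLast e₁ = u := by
        rw [List.getLast?_eq_some_getLast e₁, Option.some_inj] at h₁; exact h₁
      have : l₁.count v = l₁.dropLast.count v + if v = u then 1 else 0 := by
        conv_lhs => rw [← List.dropLast_append_getLast e₁, List.count_append, hu]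
        rw [List.count_singleton]
        by_cases huv : v = u
        · simp [huv]
        · simp [huv, Ne.symm huv]
      simp [this]
      omega
  | l₁ :: l₂ :: l₃ :: Ls, h => by
    have h₁ := h l₁ (by simp)
    have h₂ := h l₂ (by simp)
    have h₃ := h l₃ (by simp)
    have ih := repArcs_lists u Ls (fun l hl => h l (by simp [hl]))
    refine repArcs_mono (repArcs_congr (repArcs_union (repArcs_spider u l₁ l₂ l₃ h₁ h₂ h₃) ih) ?_) ?_
    · ext a
      simp [or_assoc]
    · intro v
      have e₁ : l₁ ≠ [] := by rintro rfl; simp at h₁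
      have hu : l₁.getLast e₁ = u := by
        rw [List.getLast?_eq_some_getLast e₁, Option.some_inj] at h₁; exact h₁
      have : l₁.count v = l₁.dropLast.count v + if v = u then 1 else 0 := by
        conv_lhs => rw [← List.dropLast_append_getLast e₁, List.count_append, hu]
        rw [List.count_singleton]
        by_cases huv : v = u
        · simp [huv]
        · simp [huv, Ne.symm huv]
      simp only [this, List.map_cons, List.sum_cons, List.length_cons]
      split_ifs <;> omega

end

end layout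

/-! ## Decomposition into trails -/

section trails

set_option linter.unusedSectionVars false

section

variable {V : Type*} [DecidableEq V]

/-- multiset of arcs of a list of vertices -/
def arcsM (l : List V) : Multiset (V × V) := (l.zip l.tail : List (V × V))

lemma map_fst_zip_tail (l : List V) : (l.zip l.tail).map Prod.fst = l.dropLast := by
  induction l with
  | nil => simp
  | cons a l ih =>
    cases l with
    | nil => simp
    | cons b l => simpa using ih

lemma map_snd_zip_tail (l : List V) : (l.zip l.tail).map Prod.snd = l.tail := by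
  apply List.map_snd_zip
  simp

lemma zip_append_tail : ∀ (l₁ : List V) (a : V) (l₂ : List V), l₁.getLast? = some a →
    (l₁ ++ l₂).zip (l₁ ++ l₂).tail = l₁.zip l₁.tail ++ (a :: l₂).zip l₂
  | [], a, l₂, h => by simp at h
  | [b], a, l₂, h => by
    simp at h
    subst h
    simp
  | b :: c :: l, a, l₂, h => by
    have := zip_append_tail (c :: l) a l₂ (by simpa using h)
    simp only [List.cons_append, List.tail_cons, List.zip_cons_cons] at this ⊢
    rw [this]

lemma arcsM_append (l₁ l₂ : List V) (a : V) (h₁ : l₁.getLast? = some a)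
    (h₂ : l₂.head? = some a) : arcsM (l₁ ++ l₂.tail) = arcsM l₁ + arcsM l₂ := by
  cases l₂ with
  | nil => simp at h₂
  | cons b l₂ =>
    simp at h₂
    subst h₂
    simp only [arcsM, List.tail_cons]
    rw [zip_append_tail l₁ b l₂ h₁]
    rfl

lemma mem_arcsOf_iff (l : List V) (a : V × V) : a ∈ arcsOf l ↔ a ∈ arcsM l := by
  simp only [arcsOf, arcsM, Set.mem_ofPred_eq, Multiset.mem_coe, List.mem_iff_getElem]
  constructor
  · rintro ⟨i, hi, rfl⟩
    refine ⟨i, by simp; omega, ?_⟩
    simp
  · rintro ⟨i, hi, rfl⟩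
    refine ⟨i, by simp at hi; omega, ?_⟩
    simp

/-- decomposition of the arc set `D` into trails -/
def IsDecomp (D : Finset (V × V)) (L : Multiset (List V)) : Prop :=
  (L.map arcsM).sum = D.val ∧ ∀ l ∈ L, l ≠ []

lemma exists_min_decomp (D : Finset (V × V)) :
    ∃ L, IsDecomp D L ∧ ∀ L', IsDecomp D L' → L.card ≤ L'.card := by
  have hne : {L | IsDecomp D L}.Nonempty := by
    refine ⟨D.val.map (fun a => [a.1, a.2]), ?_, ?_⟩
    · rw [Multiset.map_map]
      have : (arcsM ∘ fun a : V × V => [a.1, a.2]) = fun a => {a} := by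
        funext a
        simp [arcsM]
      rw [this, Multiset.sum_map_singleton]
    · intro l hl
      rw [Multiset.mem_map] at hl
      obtain ⟨a, -, rfl⟩ := hl
      simp
  obtain ⟨L, hL, hmin⟩ := WellFounded.has_min (measure (fun L : Multiset (List V) => L.card)).wf
    _ hne
  refine ⟨L, hL, fun L' hL' => ?_⟩
  have := hmin L' hL'
  exact not_lt.1 this

lemma no_concat {D : Finset (V × V)} {L : Multiset (List V)} (hL : IsDecomp D L)
    (hmin : ∀ L', IsDecomp D L' → L.card ≤ L'.card) (l₁ l₂ : List V) (R : Multiset (List V))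
    (hR : L = l₁ ::ₘ l₂ ::ₘ R) (a : V) (h₁ : l₁.getLast? = some a)
    (h₂ : l₂.head? = some a) : False := by
  have : IsDecomp D ((l₁ ++ l₂.tail) ::ₘ R) := by
    constructor
    · rw [← hL.1, hR]
      simp only [Multiset.map_cons, Multiset.sum_cons]
      rw [arcsM_append l₁ l₂ a h₁ h₂, add_assoc]
    · intro l hl
      rw [Multiset.mem_cons] at hl
      rcases hl with rfl | hl
      · have : l₁ ≠ [] := by rintro rfl; simp at h₁
        simp [this]
      · exact hL.2 l (by rw [hR]; simp [hl])
  have := hmin _ this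
  rw [hR] at this
  simp at this

/-- number of trails ending at `v` -/
def nLast (L : Multiset (List V)) (v : V) : ℕ := L.countP (fun l => l.getLast? = some v)

/-- number of trails starting at `v` -/
def nHead (L : Multiset (List V)) (v : V) : ℕ := L.countP (fun l => l.head? = some v)

lemma nHead_nLast {D : Finset (V × V)} {L : Multiset (List V)} (hL : IsDecomp D L)
    (hmin : ∀ L', IsDecomp D L' → L.card ≤ L'.card) (v : V) (h1 : 1 ≤ nHead L v)
    (h2 : 1 ≤ nLast L v) : nHead L v = 1 ∧ nLast L v = 1 := by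
  constructor
  · by_contra hne
    have hge : 2 ≤ nHead L v := by omega
    obtain ⟨l₁, hl₁, hp₁⟩ := Multiset.countP_pos.1 (show 0 < nLast L v by omega)
    obtain ⟨R, hR⟩ := Multiset.exists_cons_of_mem hl₁
    have : 1 ≤ nHead R v := by
      unfold nHead at hge ⊢
      rw [hR, Multiset.countP_cons] at hge
      split_ifs at hge <;> omega
    obtain ⟨l₂, hl₂, hp₂⟩ := Multiset.countP_pos.1 (show 0 < nHead R v by omega)
    obtain ⟨R', hR'⟩ := Multiset.exists_cons_of_mem hl₂
    exact no_concat hL hmin l₁ l₂ R' (by rw [hR, hR']) v hp₁ hp₂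
  · by_contra hne
    have hge : 2 ≤ nLast L v := by omega
    obtain ⟨l₂, hl₂, hp₂⟩ := Multiset.countP_pos.1 (show 0 < nHead L v by omega)
    obtain ⟨R, hR⟩ := Multiset.exists_cons_of_mem hl₂
    have : 1 ≤ nLast R v := by
      unfold nLast at hge ⊢
      rw [hR, Multiset.countP_cons] at hge
      split_ifs at hge <;> omega
    obtain ⟨l₁, hl₁, hp₁⟩ := Multiset.countP_pos.1 (show 0 < nLast R v by omega)
    obtain ⟨R', hR'⟩ := Multiset.exists_cons_of_mem hl₁
    exact no_concat hL hmin l₁ l₂ R' (by rw [hR, hR', Multiset.cons_swap]) v hp₁ hp₂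

lemma count_dropLast_add (l : List V) (hl : l ≠ []) (v : V) :
    l.dropLast.count v + (if l.getLast? = some v then 1 else 0)
      = l.tail.count v + (if l.head? = some v then 1 else 0) := by
  have h1 : l.count v = l.dropLast.count v + if l.getLast? = some v then 1 else 0 := by
    conv_lhs => rw [← List.dropLast_append_getLast hl, List.count_append]
    rw [List.getLast?_eq_some_getLast hl, List.count_singleton]
    by_cases huv : l.getLast hl = v
    · simp [huv]
    · simp [huv]
  have h2 : l.count v = l.tail.count v + if l.head? = some v then 1 else 0 := by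
    cases l with
    | nil => exact absurd rfl hl
    | cons a l => simp [List.count_cons]
  omega

lemma sum_count_dropLast {D : Finset (V × V)} {L : Multiset (List V)} (hL : IsDecomp D L) (v : V) :
    (L.map (fun l => l.dropLast.count v)).sum = (D.filter (fun a => a.1 = v)).card := by
  have h : ((L.map arcsM).sum.map Prod.fst).count v = (L.map (fun l => l.dropLast.count v)).sum := by
    clear hL
    induction L using Multiset.induction_on with
    | empty => simp
    | cons l L ih =>
      simp only [Multiset.map_cons, Multiset.sum_cons, Multiset.map_add, Multiset.count_add, ih]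
      congr 1
      rw [arcsM, Multiset.map_coe, map_fst_zip_tail, Multiset.coe_count]
  rw [← h, hL.1, Multiset.count_map, Finset.card_def, Finset.filter_val]
  congr 1
  apply Multiset.filter_congr
  intro a _
  exact eq_comm

lemma sum_count_tail {D : Finset (V × V)} {L : Multiset (List V)} (hL : IsDecomp D L) (v : V) :
    (L.map (fun l => l.tail.count v)).sum = (D.filter (fun a => a.2 = v)).card := by
  have h : ((L.map arcsM).sum.map Prod.snd).count v = (L.map (fun l => l.tail.count v)).sum := by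
    clear hL
    induction L using Multiset.induction_on with
    | empty => simp
    | cons l L ih =>
      simp only [Multiset.map_cons, Multiset.sum_cons, Multiset.map_add, Multiset.count_add, ih]
      congr 1
      rw [arcsM, Multiset.map_coe, map_snd_zip_tail, Multiset.coe_count]
  rw [← h, hL.1, Multiset.count_map, Finset.card_def, Finset.filter_val]
  congr 1
  apply Multiset.filter_congr
  intro a _
  exact eq_comm

lemma balance {D : Finset (V × V)} {L : Multiset (List V)} (hL : IsDecomp D L) (v : V) :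
    (D.filter (fun a => a.1 = v)).card + nLast L v = (D.filter (fun a => a.2 = v)).card + nHead L v := by
  rw [← sum_count_dropLast hL, ← sum_count_tail hL]
  have hne := hL.2
  clear hL
  induction L using Multiset.induction_on with
  | empty => simp [nLast, nHead]
  | cons l L ih =>
    have ih' := ih (fun l hl => hne l (by simp [hl]))
    have := count_dropLast_add l (hne l (by simp)) v
    simp only [nLast, nHead, Multiset.map_cons, Multiset.sum_cons, Multiset.countP_cons] at ih' ⊢
    omega

lemma repArcs_biUnion {ι : Type*} [DecidableEq ι] (s : Finset ι) (S : ι → Set (V × V)) (t : ι → V → ℕ)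
    (h : ∀ i ∈ s, RepArcs (S i) (t i)) :
    RepArcs {a | ∃ i ∈ s, a ∈ S i} (fun w => ∑ i ∈ s, t i w) := by
  induction s using Finset.induction_on with
  | empty =>
    refine repArcs_mono (repArcs_congr repArcs_empty ?_) (fun v => Nat.zero_le _)
    simp
  | insert i s hi ih =>
    have ih' := ih (fun j hj => h j (by simp [hj]))
    refine repArcs_mono (repArcs_congr (repArcs_union (h i (by simp)) ih') ?_) ?_
    · ext a
      simp
    · intro v
      rw [Finset.sum_insert hi]

lemma sum_filter_last [Fintype V] (L : Multiset (List V)) (hne : ∀ l ∈ L, l ≠ [])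
    (f : List V → ℕ) :
    ∑ v : V, ((L.filter (fun l => l.getLast? = some v)).map f).sum = (L.map f).sum := by
  induction L using Multiset.induction_on with
  | empty => simp
  | cons l L ih =>
    have ih' := ih (fun l hl => hne l (by simp [hl]))
    have hl : l ≠ [] := hne l (by simp)
    rw [Multiset.map_cons, Multiset.sum_cons, ← ih']
    have : ∀ v : V, (((l ::ₘ L).filter (fun l => l.getLast? = some v)).map f).sum
        = (if v = l.getLast hl then f l else 0) +
          ((L.filter (fun l => l.getLast? = some v)).map f).sum := by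
      intro v
      rw [Multiset.filter_cons]
      by_cases hv : l.getLast? = some v
      · have hv' : v = l.getLast hl := by
          rw [List.getLast?_eq_some_getLast hl, Option.some_inj] at hv; exact hv.symm
        simp [hv, ← hv']
      · have hv' : ¬ v = l.getLast hl := by
          rw [List.getLast?_eq_some_getLast hl, Option.some_inj] at hv
          exact fun h => hv h.symm
        simp [hv, hv']
    simp only [this, Finset.sum_add_distrib, Finset.sum_ite_eq', Finset.mem_univ, if_true]

theorem repArcs_of_finset [Fintype V] (D : Finset (V × V)) (Δ : ℕ)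
    (hout : ∀ v, (D.filter (fun a => a.1 = v)).card ≤ 3)
    (hdeg : ∀ v, (D.filter (fun a => a.1 = v)).card + (D.filter (fun a => a.2 = v)).card ≤ Δ) :
    RepArcs (D : Set (V × V)) (fun _ => (Δ + 3) / 3 + 1) := by
  obtain ⟨L, hL, hmin⟩ := exists_min_decomp D
  let Ls : V → List (List V) := fun v => (L.filter (fun l => l.getLast? = some v)).toList
  have hLs : ∀ v, ∀ l ∈ Ls v, l.getLast? = some v := by
    intro v l hl
    simp only [Ls, Multiset.mem_toList, Multiset.mem_filter] at hl
    exact hl.2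
  have key := repArcs_biUnion (Finset.univ : Finset V) _ _
    (fun v _ => repArcs_lists v (Ls v) (hLs v))
  refine repArcs_mono (repArcs_congr key ?_) ?_
  · ext a
    simp only [Finset.mem_univ, true_and, Set.mem_ofPred_eq, Finset.mem_coe]
    constructor
    · rintro ⟨v, l, hl, ha⟩
      rw [mem_arcsOf_iff] at ha
      simp only [Ls, Multiset.mem_toList, Multiset.mem_filter] at hl
      have : a ∈ (L.map arcsM).sum :=
        Multiset.mem_join.2 ⟨arcsM l, Multiset.mem_map_of_mem _ hl.1, ha⟩
      rw [hL.1] at this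
      exact this
    · intro ha
      have ha' : a ∈ (L.map arcsM).sum := by rw [hL.1]; exact ha
      obtain ⟨m, hm, ham⟩ := Multiset.mem_join.1 ha'
      obtain ⟨l, hl, rfl⟩ := Multiset.mem_map.1 hm
      have hne := hL.2 l hl
      refine ⟨l.getLast hne, l, ?_, (mem_arcsOf_iff l a).2 ham⟩
      simp only [Ls, Multiset.mem_toList, Multiset.mem_filter]
      exact ⟨hl, List.getLast?_eq_some_getLast hne⟩
  · intro w
    have e1 : ∑ v : V, ((Ls v).map (fun l => l.dropLast.count w)).sum
        = (D.filter (fun a => a.1 = w)).card := by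
      rw [← sum_count_dropLast hL w, ← sum_filter_last L hL.2]
      apply Finset.sum_congr rfl
      intro v _
      simp only [Ls]
      rw [← Multiset.sum_coe, ← Multiset.map_coe, Multiset.coe_toList]
    have e2 : ∑ v : V, (if w = v then ((Ls v).length + 2) / 3 else 0) = (nLast L w + 2) / 3 := by
      rw [Finset.sum_ite_eq]
      simp only [Finset.mem_univ, if_true, Ls, Multiset.length_toList, nLast,
        Multiset.countP_eq_card_filter]
    rw [Finset.sum_add_distrib, e1, e2]
    have b := balance hL w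
    have h1 := hout w
    have h2 := hdeg w
    have h3 := nHead_nLast hL hmin w
    rcases Nat.eq_zero_or_pos (nLast L w) with hz | hp
    · rw [hz] at b ⊢
      omega
    · rcases Nat.eq_zero_or_pos (nHead L w) with hz' | hp'
      · rw [hz'] at b
        omega
      · obtain ⟨q1, q2⟩ := h3 hp' hp
        rw [q1, q2] at b
        rw [q2]
        omega

end

end trails

/-! ## Orientations -/

/-- From the density condition to the existence of bars. -/
theorem repArcs_of_sparse {V : Type*} [Fintype V] [DecidableEq V] (G : SimpleGraph V)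
    [DecidableRel G.Adj]
    (hs : ∀ A : Finset (Sym2 V), (A : Set (Sym2 V)) ⊆ G.edgeSet →
      A.card ≤ 3 * (A.biUnion (fun e => e.toFinset)).card) :
    RepArcs {a : V × V | G.Adj a.1 a.2} (fun _ => (G.maxDegree + 3) / 3 + 1) := by
  classical
  -- Hall's theorem
  have hall : ∀ s : Finset G.edgeSet, s.card ≤
      (s.biUnion (fun e => (e : Sym2 V).toFinset ×ˢ (Finset.univ : Finset (Fin 3)))).card := by
    intro s
    have h1 := hs (s.image Subtype.val) (by
      intro e he
      simp only [Finset.coe_image, Set.mem_image, Finset.mem_coe] at he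
      obtain ⟨e', -, rfl⟩ := he
      exact e'.2)
    rw [Finset.card_image_of_injective _ Subtype.val_injective] at h1
    have h2 : (s.biUnion (fun e => (e : Sym2 V).toFinset ×ˢ (Finset.univ : Finset (Fin 3))))
        = ((s.image Subtype.val).biUnion (fun e => e.toFinset)) ×ˢ
          (Finset.univ : Finset (Fin 3)) := by
      ext ⟨a, b⟩
      simp
    rw [h2, Finset.card_product, Finset.card_univ, Fintype.card_fin, mul_comm]
    exact h1
  obtain ⟨f, hfinj, hf⟩ := (Finset.all_card_le_biUnion_card_iff_exists_injective _).1 hall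
  have hf' : ∀ e : G.edgeSet, (f e).1 ∈ (e : Sym2 V) := by
    intro e
    have := hf e
    simp only [Finset.mem_product, Finset.mem_univ, and_true] at this
    simpa using this
  let D : Finset (V × V) := Finset.univ.filter
    (fun a => ∃ h : G.Adj a.1 a.2, (f ⟨s(a.1, a.2), h⟩).1 = a.1)
  have hD : ∀ a, a ∈ D ↔ ∃ h : G.Adj a.1 a.2, (f ⟨s(a.1, a.2), h⟩).1 = a.1 := by
    intro a; simp [D]
  have hout : ∀ v, (D.filter (fun a => a.1 = v)).card ≤ 3 := by
    intro v
    have hmem : ∀ a ∈ D.filter (fun a => a.1 = v), ∃ h : G.Adj a.1 a.2,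
        (f ⟨s(a.1, a.2), h⟩).1 = v := by
      intro a ha
      rw [Finset.mem_filter, hD] at ha
      obtain ⟨⟨h, h'⟩, rfl⟩ := ha
      exact ⟨h, h'⟩
    choose hadj hfst using hmem
    have : (D.filter (fun a => a.1 = v)).attach.card ≤ (Finset.univ : Finset (Fin 3)).card := by
      apply Finset.card_le_card_of_injOn
        (fun a : {x // x ∈ D.filter (fun a => a.1 = v)} =>
          (f ⟨s((a : V × V).1, (a : V × V).2), hadj a.1 a.2⟩).2)
      · intro a _; simp
      · intro a _ b _ hab
        simp only at hab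
        have hfe : f ⟨s((a : V × V).1, (a : V × V).2), hadj a.1 a.2⟩
            = f ⟨s((b : V × V).1, (b : V × V).2), hadj b.1 b.2⟩ := by
          apply Prod.ext
          · rw [hfst a.1 a.2, hfst b.1 b.2]
          · exact hab
        have h1 : s((a : V × V).1, (a : V × V).2) = s((b : V × V).1, (b : V × V).2) :=
          congrArg Subtype.val (hfinj hfe)
        have ha1 : a.1.1 = v := (Finset.mem_filter.1 a.2).2
        have hb1 : b.1.1 = v := (Finset.mem_filter.1 b.2).2
        rw [Sym2.eq_iff] at h1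
        apply Subtype.ext
        rcases h1 with ⟨p, q⟩ | ⟨p, q⟩
        · exact Prod.ext p q
        · apply Prod.ext
          · rw [ha1, hb1]
          · rw [q, ← p, ha1, hb1]
    simpa using this
  have hdeg : ∀ v, (D.filter (fun a => a.1 = v)).card + (D.filter (fun a => a.2 = v)).card
      ≤ G.maxDegree := by
    intro v
    have hd : Disjoint ((D.filter (fun a => a.1 = v)).image Prod.snd)
        ((D.filter (fun a => a.2 = v)).image Prod.fst) := by
      rw [Finset.disjoint_left]
      intro w h1 h2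
      simp only [Finset.mem_image, Finset.mem_filter] at h1 h2
      obtain ⟨⟨a1, a2⟩, ⟨ha, hav⟩, haw⟩ := h1
      obtain ⟨⟨b1, b2⟩, ⟨hb, hbv⟩, hbw⟩ := h2
      simp only at hav haw hbv hbw
      subst hav haw
      subst hbv hbw
      rw [hD] at ha hb
      obtain ⟨g1, g2⟩ := ha
      obtain ⟨g3, g4⟩ := hb
      simp only at g1 g2 g3 g4
      have : (⟨s(b2, b1), g1⟩ : G.edgeSet) = ⟨s(b1, b2), g3⟩ := Subtype.ext Sym2.eq_swap
      rw [this] at g2
      rw [g2] at g4
      exact g1.ne g4
    have c1 : ((D.filter (fun a => a.1 = v)).image Prod.snd).card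
        = (D.filter (fun a => a.1 = v)).card := by
      apply Finset.card_image_of_injOn
      intro a ha b hb hab
      have ha1 : a.1 = v := (Finset.mem_filter.1 ha).2
      have hb1 : b.1 = v := (Finset.mem_filter.1 hb).2
      exact Prod.ext (ha1.trans hb1.symm) hab
    have c2 : ((D.filter (fun a => a.2 = v)).image Prod.fst).card
        = (D.filter (fun a => a.2 = v)).card := by
      apply Finset.card_image_of_injOn
      intro a ha b hb hab
      have ha1 : a.2 = v := (Finset.mem_filter.1 ha).2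
      have hb1 : b.2 = v := (Finset.mem_filter.1 hb).2
      exact Prod.ext hab (ha1.trans hb1.symm)
    rw [← c1, ← c2, ← Finset.card_union_of_disjoint hd]
    refine le_trans (Finset.card_le_card ?_) (G.degree_le_maxDegree v)
    intro w hw
    rw [SimpleGraph.mem_neighborFinset]
    simp only [Finset.mem_union, Finset.mem_image, Finset.mem_filter] at hw
    rcases hw with ⟨a, ⟨ha, rfl⟩, rfl⟩ | ⟨a, ⟨ha, rfl⟩, rfl⟩
    · exact ((hD a).1 ha).1
    · exact ((hD a).1 ha).1.symm
  have key := repArcs_of_finset D G.maxDegree hout hdeg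
  obtain ⟨ι, fι, pos, own, h1, h2, h3⟩ := key
  refine ⟨ι, fι, pos, own, h1, ?_, h3⟩
  intro v w hvw
  rw [← h2 v w hvw]
  simp only [Set.mem_ofPred_eq, Finset.mem_coe, hD]
  constructor
  · intro h
    have h : G.Adj v w := by
      rcases h with h | h
      · exact h
      · exact h.symm
    have h3 := hf' ⟨s(v, w), h⟩
    rw [Sym2.mem_iff] at h3
    rcases h3 with h3 | h3
    · exact Or.inl ⟨h, h3⟩
    · right
      refine ⟨h.symm, ?_⟩
      have : (⟨s(w, v), h.symm⟩ : G.edgeSet) = ⟨s(v, w), h⟩ := Subtype.ext Sym2.eq_swap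
      rw [this, h3]
  · rintro (⟨h, -⟩ | ⟨h, -⟩)
    · exact Or.inl h
    · exact Or.inr h

theorem rep_of_repArcs {V : Type*} (G : SimpleGraph V) (t : ℕ)
    (h : RepArcs {a : V × V | G.Adj a.1 a.2} (fun _ => t)) : ∃ B, IsUnitBarRep G t B := by
  classical
  obtain ⟨ι, fι, pos, own, h1, h2, h3⟩ := h
  have hinj : Function.Injective pos := by
    intro i j hij
    by_contra hne
    exact h1 i j hne ⟨by rw [hij], by rw [hij]; linarith, by rw [hij]; linarith⟩
  let B : V → Finset (ℝ × ℝ) := fun v => (Finset.univ.filter (fun i => own i = v)).image pos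
  have hB : ∀ v b, b ∈ B v ↔ ∃ i, own i = v ∧ pos i = b := by
    intro v b; simp [B]
  have hU : ∀ d, d ∈ (⋃ u, (B u : Set (ℝ × ℝ))) ↔ ∃ i, pos i = d := by
    intro d
    simp only [Set.mem_iUnion, Finset.mem_coe, hB]
    constructor
    · rintro ⟨_, i, _, hi⟩; exact ⟨i, hi⟩
    · rintro ⟨i, hi⟩; exact ⟨own i, i, rfl, hi⟩
  refine ⟨B, ⟨?_, ?_, ?_⟩⟩
  · intro v
    rw [Finset.card_image_of_injective _ hinj, ← Fintype.card_subtype, ← Nat.card_eq_fintype_card]
    exact h3 v
  · intro v w b hb c hc hne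
    obtain ⟨i, hi, rfl⟩ := (hB v b).1 hb
    obtain ⟨j, hj, rfl⟩ := (hB w c).1 hc
    have hij : i ≠ j := by
      rintro rfl
      exact hne (by rw [← hi, ← hj])
    rw [Set.disjoint_left]
    rintro z ⟨a1, a2, a3⟩ ⟨b1, b2, b3⟩
    exact h1 i j hij ⟨by rw [← a3, ← b3], by linarith, by linarith⟩
  · intro v w hvw
    have h2' := h2 v w hvw
    simp only [Set.mem_ofPred_eq] at h2'
    have hG : G.Adj v w ↔ (G.Adj v w ∨ G.Adj w v) :=
      ⟨Or.inl, fun h => h.elim id (fun h => h.symm)⟩
    rw [hG, h2']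
    constructor
    · rintro ⟨i, j, hi, hj, p, q, g1, g2, g3, g4, g5, g6⟩
      have hij : i ≠ j := by rintro rfl; exact hvw (hi.symm.trans hj)
      refine ⟨pos i, (hB v _).2 ⟨i, hi, rfl⟩, pos j, (hB w _).2 ⟨j, hj, rfl⟩,
        fun h => hij (hinj h), p, q, g1, g2, g3, g4, g5, ?_⟩
      intro d hd hd1 hd2
      obtain ⟨k, rfl⟩ := (hU d).1 hd
      rw [Set.disjoint_left]
      rintro z ⟨a1, a2, a3⟩ ⟨b1, b2, b3, b4⟩
      exact g6 k (fun h => hd1 (by rw [h])) (fun h => hd2 (by rw [h]))
        ⟨by linarith, by linarith, by rw [← a3]; exact b3, by rw [← a3]; exact b4⟩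
    · rintro ⟨b, hb, c, hc, -, p, q, g1, g2, g3, g4, g5, g6⟩
      obtain ⟨i, hi, rfl⟩ := (hB v b).1 hb
      obtain ⟨j, hj, rfl⟩ := (hB w c).1 hc
      refine ⟨i, j, hi, hj, p, q, g1, g2, g3, g4, g5, ?_⟩
      rintro k hk1 hk2 ⟨c1, c2, c3, c4⟩
      have := g6 (pos k) ((hU _).2 ⟨k, rfl⟩) (fun h => hk1 (hinj h)) (fun h => hk2 (hinj h))
      rw [Set.disjoint_left] at this
      refine this (a := (max p (pos k).1, (pos k).2)) ⟨?_, ?_, rfl⟩ ⟨?_, ?_, c3, c4⟩
      · exact le_max_right _ _
      · exact max_le c2 (by linarith)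
      · exact le_max_left _ _
      · exact max_le g1.le c1

/-! ## Non-planarity of the complete graph on five vertices -/

/-- height at abscissa `x` of the line through `c` and `d` -/
noncomputable def hgt (c d : ℝ × ℝ) (x : ℝ) : ℝ := c.2 + (x - c.1) * ((d.2 - c.2) / (d.1 - c.1))

lemma hgt_left (c d : ℝ × ℝ) : hgt c d c.1 = c.2 := by simp [hgt]

lemma hgt_right {c d : ℝ × ℝ} (h : c.1 ≠ d.1) : hgt c d d.1 = d.2 := by
  have : d.1 - c.1 ≠ 0 := sub_ne_zero.2 h.symm
  unfold hgt
  field_simp
  ring

lemma hgt_symm {c d : ℝ × ℝ} (h : c.1 ≠ d.1) (x : ℝ) : hgt c d x = hgt d c x := by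
  have h1 : d.1 - c.1 ≠ 0 := sub_ne_zero.2 h.symm
  have h2 : c.1 - d.1 ≠ 0 := sub_ne_zero.2 h
  unfold hgt
  rw [show c.2 - d.2 = -(d.2 - c.2) by ring, show c.1 - d.1 = -(d.1 - c.1) by ring, neg_div_neg_eq]
  field_simp
  ring

lemma mem_segment_hgt {c d : ℝ × ℝ} {x : ℝ} (h : c.1 < d.1) (h1 : c.1 ≤ x) (h2 : x ≤ d.1) :
    (x, hgt c d x) ∈ segment ℝ c d := by
  rw [segment_eq_image]
  have hpos : 0 < d.1 - c.1 := by linarith
  refine ⟨(x - c.1) / (d.1 - c.1), ⟨by apply div_nonneg <;> linarith, ?_⟩, ?_⟩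
  · rw [div_le_one hpos]; linarith
  · apply Prod.ext
    · simp only [Prod.fst_add, Prod.smul_fst, smul_eq_mul]
      field_simp
      ring
    · simp only [Prod.snd_add, Prod.smul_snd, smul_eq_mul, hgt]
      field_simp
      ring

/-- Disjoint segments do not change their vertical order. -/
lemma same_side {c d p q : ℝ × ℝ} (hcd : c.1 < d.1) (hpq : p.1 < q.1)
    (hdis : Disjoint (segment ℝ c d) (segment ℝ p q)) {s t : ℝ}
    (hs : c.1 ≤ s ∧ s ≤ d.1 ∧ p.1 ≤ s ∧ s ≤ q.1) (ht : c.1 ≤ t ∧ t ≤ d.1 ∧ p.1 ≤ t ∧ t ≤ q.1) :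
    hgt p q s < hgt c d s → hgt p q t < hgt c d t := by
  intro h
  by_contra hcon
  push Not at hcon
  -- find a zero of the difference between `s` and `t`
  let D : ℝ → ℝ := fun x => hgt c d x - hgt p q x
  have hD : Continuous D := by
    unfold D hgt
    fun_prop
  have hDs : 0 < D s := by simp only [D]; linarith
  have hDt : D t ≤ 0 := by simp only [D]; linarith
  have hzero : ∃ x ∈ Set.uIcc s t, D x = 0 := by
    have h0 : (0 : ℝ) ∈ Set.uIcc (D s) (D t) := by
      rw [Set.uIcc_comm, Set.uIcc_of_le (by linarith)]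
      exact ⟨hDt, hDs.le⟩
    obtain ⟨x, hx, hx0⟩ := intermediate_value_uIcc hD.continuousOn h0
    exact ⟨x, hx, hx0⟩
  obtain ⟨x, hx, hx0⟩ := hzero
  rw [Set.mem_uIcc] at hx
  have hx1 : c.1 ≤ x ∧ x ≤ d.1 ∧ p.1 ≤ x ∧ x ≤ q.1 := by
    rcases hx with hx | hx
    · exact ⟨by linarith [hs.1], by linarith [ht.2.1], by linarith [hs.2.2.1], by linarith [ht.2.2.2]⟩
    · exact ⟨by linarith [ht.1], by linarith [hs.2.1], by linarith [ht.2.2.1], by linarith [hs.2.2.2]⟩
  have e : hgt c d x = hgt p q x := by simp only [D] at hx0; linarith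
  rw [Set.disjoint_left] at hdis
  apply hdis (mem_segment_hgt hcd hx1.1 hx1.2.1)
  rw [e]
  exact mem_segment_hgt hpq hx1.2.2.1 hx1.2.2.2

/-- comparison of abscissas as a number -/
noncomputable def lt01 (a b : ℝ × ℝ) : ℤ := if a.1 < b.1 then 1 else 0

/-- `1` if `a` lies (horizontally) strictly between `c` and `d` and below the segment -/
noncomputable def U (a c d : ℝ × ℝ) : ℤ :=
  if ((c.1 < a.1 ∧ a.1 < d.1) ∨ (d.1 < a.1 ∧ a.1 < c.1)) ∧ a.2 < hgt c d a.1 then 1 else 0

lemma U_symm (a c d : ℝ × ℝ) : U a c d = U a d c := by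
  unfold U
  by_cases h : c.1 = d.1
  · have e1 : ¬ ((c.1 < a.1 ∧ a.1 < d.1) ∨ (d.1 < a.1 ∧ a.1 < c.1)) := by
      rw [h]; rintro (h | h) <;> linarith [h.1, h.2]
    have e2 : ¬ ((d.1 < a.1 ∧ a.1 < c.1) ∨ (c.1 < a.1 ∧ a.1 < d.1)) := by
      rw [h]; rintro (h | h) <;> linarith [h.1, h.2]
    rw [if_neg (fun h => e1 h.1), if_neg (fun h => e2 h.1)]
  · rw [hgt_symm h]
    apply if_congr _ rfl rfl
    rw [or_comm]

lemma U_zero_of_left {a c d : ℝ × ℝ} (h1 : a.1 < c.1) (h2 : a.1 < d.1) : U a c d = 0 := by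
  unfold U
  rw [if_neg]
  rintro ⟨h | h, -⟩ <;> linarith [h.1, h.2]

lemma U_zero_of_right {a c d : ℝ × ℝ} (h1 : c.1 < a.1) (h2 : d.1 < a.1) : U a c d = 0 := by
  unfold U
  rw [if_neg]
  rintro ⟨h | h, -⟩ <;> linarith [h.1, h.2]

lemma U_between {a c d : ℝ × ℝ} (h1 : c.1 < a.1) (h2 : a.1 < d.1) :
    U a c d = if a.2 < hgt c d a.1 then 1 else 0 := by
  unfold U
  apply if_congr _ rfl rfl
  constructor
  · exact fun h => h.2
  · exact fun h => ⟨Or.inl ⟨h1, h2⟩, h⟩

lemma lt01_one {a b : ℝ × ℝ} (h : a.1 < b.1) : lt01 a b = 1 := if_pos h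

lemma lt01_zero {a b : ℝ × ℝ} (h : b.1 < a.1) : lt01 a b = 0 := if_neg (not_lt.2 h.le)

/-- The four point lemma: for disjoint segments `p q` and `c d`, with the abscissas of `p, q`
different from those of `c, d`. -/
lemma four_point {p q c d : ℝ × ℝ} (hdis : Disjoint (segment ℝ c d) (segment ℝ p q))
    (h1 : p.1 ≠ c.1) (h2 : p.1 ≠ d.1) (h3 : q.1 ≠ c.1) (h4 : q.1 ≠ d.1) :
    Even (U p c d + U q c d + (U c p q + lt01 p c + lt01 q c) + (U d p q + lt01 p d + lt01 q d)) := by
  -- reduce to `p.1 ≤ q.1` and `c.1 ≤ d.1`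
  wlog hpq : p.1 ≤ q.1 generalizing p q with H
  · have := H (p := q) (q := p) (by rwa [segment_symm ℝ q p]) h3 h4 h1 h2 (by linarith)
    rw [U_symm c p q, U_symm d p q]
    convert this using 1
    ring
  wlog hcd : c.1 ≤ d.1 generalizing c d with H
  · have := H (c := d) (d := c) (by rwa [segment_symm ℝ d c]) h2 h1 h4 h3 (by linarith)
    rw [U_symm p c d, U_symm q c d]
    convert this using 1
    ring
  -- main case analysis
  rcases eq_or_lt_of_le hpq with heq | hlt
  · -- vertical segment `p q`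
    have u1 : U c p q = 0 := by
      unfold U
      rw [if_neg]
      rintro ⟨h | h, -⟩ <;> linarith [h.1, h.2]
    have u2 : U d p q = 0 := by
      unfold U
      rw [if_neg]
      rintro ⟨h | h, -⟩ <;> linarith [h.1, h.2]
    have u3 : lt01 p c = lt01 q c := by unfold lt01; rw [heq]
    have u4 : lt01 p d = lt01 q d := by unfold lt01; rw [heq]
    have u5 : U p c d = U q c d := by
      unfold U
      rw [← heq]
      by_cases hb : (c.1 < p.1 ∧ p.1 < d.1) ∨ (d.1 < p.1 ∧ p.1 < c.1)
      · have hb' : c.1 < p.1 ∧ p.1 < d.1 := by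
          rcases hb with hb | hb
          · exact hb
          · linarith [hb.1, hb.2]
        have hcd' : c.1 < d.1 := by linarith [hb'.1, hb'.2]
        have hmem := mem_segment_hgt hcd' hb'.1.le hb'.2.le
        rw [Set.disjoint_left] at hdis
        have hnot := hdis hmem
        -- both on the same side
        have : p.2 < hgt c d p.1 ↔ q.2 < hgt c d p.1 := by
          by_contra hcon
          apply hnot
          rw [segment_eq_image]
          -- the vertical segment contains the point
          have hval : ∃ t ∈ Set.Icc (0 : ℝ) 1, (1 - t) * p.2 + t * q.2 = hgt c d p.1 := by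
            have hne : p.2 ≠ q.2 := by
              intro h
              apply hcon
              rw [h]
            have hcases : (p.2 < hgt c d p.1 ∧ hgt c d p.1 ≤ q.2) ∨
                (q.2 < hgt c d p.1 ∧ hgt c d p.1 ≤ p.2) := by
              by_cases g1 : p.2 < hgt c d p.1
              · left
                refine ⟨g1, ?_⟩
                by_contra g2
                push Not at g2
                exact hcon (iff_of_true g1 g2)
              · right
                by_cases g2 : q.2 < hgt c d p.1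
                · exact ⟨g2, not_lt.1 g1⟩
                · exact absurd (iff_of_false g1 g2) hcon
            have hne' : q.2 - p.2 ≠ 0 := sub_ne_zero.2 hne.symm
            refine ⟨(hgt c d p.1 - p.2) / (q.2 - p.2), ?_, ?_⟩
            · rcases hcases with ⟨g1, g2⟩ | ⟨g1, g2⟩
              · have hp : 0 < q.2 - p.2 := by linarith
                constructor
                · apply div_nonneg <;> linarith
                · rw [div_le_one hp]; linarith
              · have hp : 0 < p.2 - q.2 := by linarith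
                rw [← neg_div_neg_eq]
                constructor
                · apply div_nonneg <;> linarith
                · rw [div_le_one (by linarith)]; linarith
            · field_simp
              ring
          obtain ⟨t, ht, hval⟩ := hval
          refine ⟨t, ht, ?_⟩
          apply Prod.ext
          · simp only [Prod.fst_add, Prod.smul_fst, smul_eq_mul]
            rw [← heq]; ring
          · simp only [Prod.snd_add, Prod.smul_snd, smul_eq_mul]
            exact hval
        simp [this]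
      · simp [hb]
    rw [u1, u2, u3, u4, u5]
    exact ⟨U q c d + lt01 q c + lt01 q d, by ring⟩
  rcases eq_or_lt_of_le hcd with heq' | hlt'
  · -- vertical segment `c d`
    have u1 : U p c d = 0 := by
      unfold U
      rw [if_neg]
      rintro ⟨h | h, -⟩ <;> linarith [h.1, h.2]
    have u2 : U q c d = 0 := by
      unfold U
      rw [if_neg]
      rintro ⟨h | h, -⟩ <;> linarith [h.1, h.2]
    have u3 : lt01 p c = lt01 p d := by unfold lt01; rw [heq']
    have u4 : lt01 q c = lt01 q d := by unfold lt01; rw [heq']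
    have u5 : U c p q = U d p q := by
      unfold U
      rw [← heq']
      by_cases hb : (p.1 < c.1 ∧ c.1 < q.1) ∨ (q.1 < c.1 ∧ c.1 < p.1)
      · have hb' : p.1 < c.1 ∧ c.1 < q.1 := by
          rcases hb with hb | hb
          · exact hb
          · linarith [hb.1, hb.2]
        have hmem := mem_segment_hgt hlt hb'.1.le hb'.2.le
        rw [Set.disjoint_right] at hdis
        have hnot := hdis hmem
        have : c.2 < hgt p q c.1 ↔ d.2 < hgt p q c.1 := by
          by_contra hcon
          apply hnot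
          rw [segment_eq_image]
          have hval : ∃ t ∈ Set.Icc (0 : ℝ) 1, (1 - t) * c.2 + t * d.2 = hgt p q c.1 := by
            have hne : c.2 ≠ d.2 := by
              intro h
              apply hcon
              rw [h]
            have hcases : (c.2 < hgt p q c.1 ∧ hgt p q c.1 ≤ d.2) ∨
                (d.2 < hgt p q c.1 ∧ hgt p q c.1 ≤ c.2) := by
              by_cases g1 : c.2 < hgt p q c.1
              · left
                refine ⟨g1, ?_⟩
                by_contra g2
                push Not at g2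
                exact hcon (iff_of_true g1 g2)
              · right
                by_cases g2 : d.2 < hgt p q c.1
                · exact ⟨g2, not_lt.1 g1⟩
                · exact absurd (iff_of_false g1 g2) hcon
            have hne' : d.2 - c.2 ≠ 0 := sub_ne_zero.2 hne.symm
            refine ⟨(hgt p q c.1 - c.2) / (d.2 - c.2), ?_, ?_⟩
            · rcases hcases with ⟨g1, g2⟩ | ⟨g1, g2⟩
              · have hp : 0 < d.2 - c.2 := by linarith
                constructor
                · apply div_nonneg <;> linarith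
                · rw [div_le_one hp]; linarith
              · have hp : 0 < c.2 - d.2 := by linarith
                rw [← neg_div_neg_eq]
                constructor
                · apply div_nonneg <;> linarith
                · rw [div_le_one (by linarith)]; linarith
            · field_simp
              ring
          obtain ⟨t, ht, hval⟩ := hval
          refine ⟨t, ht, ?_⟩
          apply Prod.ext
          · simp only [Prod.fst_add, Prod.smul_fst, smul_eq_mul]
            rw [← heq']; ring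
          · simp only [Prod.snd_add, Prod.smul_snd, smul_eq_mul]
            exact hval
        simp [this]
      · simp [hb]
    rw [u1, u2, u3, u4, u5]
    exact ⟨U d p q + lt01 p d + lt01 q d, by ring⟩
  -- generic case
  have SS : ∀ s t : ℝ, (c.1 ≤ s ∧ s ≤ d.1 ∧ p.1 ≤ s ∧ s ≤ q.1) →
      (c.1 ≤ t ∧ t ≤ d.1 ∧ p.1 ≤ t ∧ t ≤ q.1) →
      (hgt p q s < hgt c d s ↔ hgt p q t < hgt c d t) := fun s t hs ht =>
    ⟨same_side hlt' hlt hdis hs ht, same_side hlt' hlt hdis ht hs⟩
  have NE : ∀ s : ℝ, (c.1 ≤ s ∧ s ≤ d.1 ∧ p.1 ≤ s ∧ s ≤ q.1) → hgt p q s ≠ hgt c d s := by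
    intro s hs h
    rw [Set.disjoint_left] at hdis
    apply hdis (mem_segment_hgt hlt' hs.1 hs.2.1)
    rw [← h]
    exact mem_segment_hgt hlt hs.2.2.1 hs.2.2.2
  have lp : hgt p q p.1 = p.2 := hgt_left p q
  have lq : hgt p q q.1 = q.2 := hgt_right hlt.ne
  have lc : hgt c d c.1 = c.2 := hgt_left c d
  have ld : hgt c d d.1 = d.2 := hgt_right hlt'.ne
  rcases lt_or_gt_of_ne h1 with g1 | g1
  · -- p < c
    rcases lt_or_gt_of_ne h3 with g3 | g3
    · -- q < c
      rw [U_zero_of_left g1 (g1.trans hlt'), U_zero_of_left g3 (g3.trans hlt'),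
        U_zero_of_right g1 g3, U_zero_of_right (g1.trans hlt') (g3.trans hlt'),
        lt01_one g1, lt01_one g3, lt01_one (g1.trans hlt'), lt01_one (g3.trans hlt')]
      decide
    · -- c < q
      rcases lt_or_gt_of_ne h4 with g4 | g4
      · -- p < c < q < d
        have e := SS c.1 q.1 ⟨le_refl _, hlt'.le, g1.le, le_of_lt g3⟩
          ⟨le_of_lt g3, g4.le, hlt.le, le_refl _⟩
        have ne := NE c.1 ⟨le_refl _, hlt'.le, g1.le, le_of_lt g3⟩
        rw [lc, lq] at e
        rw [lc] at ne
        rw [U_zero_of_left g1 (g1.trans hlt'), U_between g3 g4, U_between g1 g3,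
          U_zero_of_right (hlt.trans g4) g4, lt01_one g1, lt01_zero g3,
          lt01_one (g1.trans hlt'), lt01_one g4]
        by_cases hb : hgt p q c.1 < c.2
        · rw [if_pos (e.1 hb), if_neg (not_lt.2 hb.le)]; decide
        · have hb' : c.2 < hgt p q c.1 := lt_of_le_of_ne (not_lt.1 hb) ne.symm
          rw [if_neg (fun h => hb (e.2 h)), if_pos hb']; decide
      · -- p < c < d < q
        have e := SS c.1 d.1 ⟨le_refl _, hlt'.le, g1.le, le_of_lt g3⟩
          ⟨hlt'.le, le_refl _, (g1.trans hlt').le, le_of_lt g4⟩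
        have ne1 := NE c.1 ⟨le_refl _, hlt'.le, g1.le, le_of_lt g3⟩
        have ne2 := NE d.1 ⟨hlt'.le, le_refl _, (g1.trans hlt').le, le_of_lt g4⟩
        rw [lc, ld] at e
        rw [lc] at ne1
        rw [ld] at ne2
        rw [U_zero_of_left g1 (g1.trans hlt'), U_zero_of_right g3 g4, U_between g1 g3,
          U_between (g1.trans hlt') g4, lt01_one g1, lt01_zero g3,
          lt01_one (g1.trans hlt'), lt01_zero g4]
        by_cases hb : hgt p q c.1 < c.2
        · rw [if_neg (not_lt.2 hb.le), if_neg (not_lt.2 (e.1 hb).le)]; decide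
        · have hb' : c.2 < hgt p q c.1 := lt_of_le_of_ne (not_lt.1 hb) ne1.symm
          have hb2 : ¬ hgt p q d.1 < d.2 := fun h => hb (e.2 h)
          have hb2' : d.2 < hgt p q d.1 := lt_of_le_of_ne (not_lt.1 hb2) ne2.symm
          rw [if_pos hb', if_pos hb2']; decide
  · -- c < p
    rcases lt_or_gt_of_ne h2 with g2 | g2
    · -- p < d
      rcases lt_or_gt_of_ne h4 with g4 | g4
      · -- c < p < q < d
        have e := SS p.1 q.1 ⟨le_of_lt g1, g2.le, le_refl _, hlt.le⟩
          ⟨(lt_trans g1 hlt).le, g4.le, hlt.le, le_refl _⟩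
        rw [lp, lq] at e
        rw [U_between g1 g2, U_between (lt_trans g1 hlt) g4,
          U_zero_of_left g1 (lt_trans g1 hlt), U_zero_of_right g2 g4, lt01_zero g1,
          lt01_zero (lt_trans g1 hlt), lt01_one g2, lt01_one g4]
        by_cases hb : p.2 < hgt c d p.1
        · rw [if_pos hb, if_pos (e.1 hb)]; decide
        · rw [if_neg hb, if_neg (fun h => hb (e.2 h))]; decide
      · -- c < p < d < q
        have e := SS p.1 d.1 ⟨le_of_lt g1, g2.le, le_refl _, hlt.le⟩
          ⟨hlt'.le, le_refl _, g2.le, le_of_lt g4⟩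
        have ne := NE d.1 ⟨hlt'.le, le_refl _, g2.le, le_of_lt g4⟩
        rw [lp, ld] at e
        rw [ld] at ne
        rw [U_between g1 g2, U_zero_of_right (hlt'.trans g4) g4,
          U_zero_of_left g1 (lt_trans g1 hlt), U_between g2 g4, lt01_zero g1,
          lt01_zero (lt_trans g1 hlt), lt01_one g2, lt01_zero g4]
        by_cases hb : p.2 < hgt c d p.1
        · rw [if_pos hb, if_neg (not_lt.2 (e.1 hb).le)]; decide
        · have hb2 : ¬ hgt p q d.1 < d.2 := fun h => hb (e.2 h)
          have hb2' : d.2 < hgt p q d.1 := lt_of_le_of_ne (not_lt.1 hb2) ne.symm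
          rw [if_neg hb, if_pos hb2']; decide
    · -- d < p
      rw [U_zero_of_right g1 g2, U_zero_of_right (lt_trans g1 hlt) (lt_trans g2 hlt),
        U_zero_of_left g1 (lt_trans g1 hlt), U_zero_of_left g2 (lt_trans g2 hlt),
        lt01_zero g1, lt01_zero (lt_trans g1 hlt), lt01_zero g2, lt01_zero (lt_trans g2 hlt)]
      decide

/-- end point of the polygonal path starting at `a` and continuing along `l` -/
def endp : (ℝ × ℝ) → List (ℝ × ℝ) → (ℝ × ℝ)
  | a, [] => a
  | _, b :: l => endp b l

/-- segments of the polygonal path -/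
def segs : (ℝ × ℝ) → List (ℝ × ℝ) → List ((ℝ × ℝ) × (ℝ × ℝ))
  | _, [] => []
  | a, b :: l => (a, b) :: segs b l

/-- number of segments of the path strictly above `x` -/
noncomputable def WW (x : ℝ × ℝ) : (ℝ × ℝ) → List (ℝ × ℝ) → ℤ
  | _, [] => 0
  | a, b :: l => U x a b + WW x b l

noncomputable def GG (p q c : ℝ × ℝ) : ℤ := U c p q + lt01 p c + lt01 q c

lemma parityA (p q : ℝ × ℝ) : ∀ (l : List (ℝ × ℝ)) (a : ℝ × ℝ),
    (∀ s ∈ segs a l, Even (U p s.1 s.2 + U q s.1 s.2 + GG p q s.1 + GG p q s.2)) →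
    Even (WW p a l + WW q a l + GG p q a + GG p q (endp a l))
  | [], a, _ => ⟨GG p q a, by simp [WW, endp]⟩
  | b :: l, a, h => by
    have ih := parityA p q l b (fun s hs => h s (by simp [segs, hs]))
    have h0 := h (a, b) (by simp [segs])
    simp only [WW, endp] at *
    rw [Int.even_iff] at *
    omega

lemma parityB (c e : ℝ × ℝ) (m : List (ℝ × ℝ)) : ∀ (l : List (ℝ × ℝ)) (a : ℝ × ℝ),
    (∀ s ∈ segs a l, Even (WW s.1 c m + WW s.2 c m + GG s.1 s.2 c + GG s.1 s.2 e)) →
    Even (WW a c m + WW (endp a l) c m + (WW c a l + lt01 a c + lt01 (endp a l) c)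
      + (WW e a l + lt01 a e + lt01 (endp a l) e))
  | [], a, _ => ⟨WW a c m + lt01 a c + lt01 a e, by simp [WW, endp]; ring⟩
  | b :: l, a, h => by
    have ih := parityB c e m l b (fun s hs => h s (by simp [segs, hs]))
    have h0 := h (a, b) (by simp [segs])
    simp only [WW, endp, GG] at *
    rw [Int.even_iff] at *
    omega

/-- Parity relation of two polygonal paths with disjoint images (and disjoint sets of
abscissas of vertices). -/
lemma parity_paths (a c : ℝ × ℝ) (l m : List (ℝ × ℝ))
    (h : ∀ s ∈ segs a l, ∀ t ∈ segs c m, Disjoint (segment ℝ t.1 t.2) (segment ℝ s.1 s.2) ∧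
      s.1.1 ≠ t.1.1 ∧ s.1.1 ≠ t.2.1 ∧ s.2.1 ≠ t.1.1 ∧ s.2.1 ≠ t.2.1) :
    Even (WW a c m + WW (endp a l) c m + (WW c a l + lt01 a c + lt01 (endp a l) c)
      + (WW (endp c m) a l + lt01 a (endp c m) + lt01 (endp a l) (endp c m))) := by
  apply parityB
  intro s hs
  apply parityA
  intro t ht
  obtain ⟨h1, h2, h3, h4, h5⟩ := h s hs t ht
  have := four_point h1 h2 h3 h4 h5
  simpa only [GG] using this

lemma lt01_add {a b : ℝ × ℝ} (h : a.1 ≠ b.1) : lt01 a b + lt01 b a = 1 := by
  rcases lt_or_gt_of_ne h with h | h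
  · rw [lt01_one h, lt01_zero h]; rfl
  · rw [lt01_zero h, lt01_one h]; rfl

/-- There are no ten polygonal paths joining five points such that paths belonging to disjoint
pairs are disjoint (polygonal, generic version of the non-planarity of `K₅`). -/
theorem no_K5_polygonal (x : Fin 5 → ℝ × ℝ) (l : Fin 5 → Fin 5 → List (ℝ × ℝ))
    (hend : ∀ i j, i < j → endp (x i) (l i j) = x j)
    (hx : ∀ i j, i ≠ j → (x i).1 ≠ (x j).1)
    (h : ∀ i j k m, i < j → k < m → i ≠ k → i ≠ m → j ≠ k → j ≠ m →
      ∀ s ∈ segs (x i) (l i j), ∀ t ∈ segs (x k) (l k m),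
        Disjoint (segment ℝ t.1 t.2) (segment ℝ s.1 s.2) ∧
        s.1.1 ≠ t.1.1 ∧ s.1.1 ≠ t.2.1 ∧ s.2.1 ≠ t.1.1 ∧ s.2.1 ≠ t.2.1) : False := by
  have P : ∀ i j k m : Fin 5, i < j → k < m → i ≠ k → i ≠ m → j ≠ k → j ≠ m →
      Even (WW (x i) (x k) (l k m) + WW (x j) (x k) (l k m)
        + (WW (x k) (x i) (l i j) + lt01 (x i) (x k) + lt01 (x j) (x k))
        + (WW (x m) (x i) (l i j) + lt01 (x i) (x m) + lt01 (x j) (x m))) := by
    intro i j k m hij hkm h1 h2 h3 h4
    have := parity_paths (x i) (x k) (l i j) (l k m) (h i j k m hij hkm h1 h2 h3 h4)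
    rwa [hend i j hij, hend k m hkm] at this
  have L : ∀ i j : Fin 5, i ≠ j → lt01 (x i) (x j) + lt01 (x j) (x i) = 1 :=
    fun i j hij => lt01_add (hx i j hij)
  have p1 := P 0 1 2 3 (by decide) (by decide) (by decide) (by decide) (by decide) (by decide)
  have p2 := P 0 1 2 4 (by decide) (by decide) (by decide) (by decide) (by decide) (by decide)
  have p3 := P 0 1 3 4 (by decide) (by decide) (by decide) (by decide) (by decide) (by decide)
  have p4 := P 0 2 1 3 (by decide) (by decide) (by decide) (by decide) (by decide) (by decide)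
  have p5 := P 0 2 1 4 (by decide) (by decide) (by decide) (by decide) (by decide) (by decide)
  have p6 := P 0 2 3 4 (by decide) (by decide) (by decide) (by decide) (by decide) (by decide)
  have p7 := P 0 3 1 2 (by decide) (by decide) (by decide) (by decide) (by decide) (by decide)
  have p8 := P 0 3 1 4 (by decide) (by decide) (by decide) (by decide) (by decide) (by decide)
  have p9 := P 0 3 2 4 (by decide) (by decide) (by decide) (by decide) (by decide) (by decide)
  have p10 := P 0 4 1 2 (by decide) (by decide) (by decide) (by decide) (by decide) (by decide)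
  have p11 := P 0 4 1 3 (by decide) (by decide) (by decide) (by decide) (by decide) (by decide)
  have p12 := P 0 4 2 3 (by decide) (by decide) (by decide) (by decide) (by decide) (by decide)
  have p13 := P 1 2 3 4 (by decide) (by decide) (by decide) (by decide) (by decide) (by decide)
  have p14 := P 1 3 2 4 (by decide) (by decide) (by decide) (by decide) (by decide) (by decide)
  have p15 := P 1 4 2 3 (by decide) (by decide) (by decide) (by decide) (by decide) (by decide)
  have q1 := L 0 1 (by decide)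
  have q2 := L 0 2 (by decide)
  have q3 := L 0 3 (by decide)
  have q4 := L 0 4 (by decide)
  have q5 := L 1 2 (by decide)
  have q6 := L 1 3 (by decide)
  have q7 := L 1 4 (by decide)
  have q8 := L 2 3 (by decide)
  have q9 := L 2 4 (by decide)
  have q10 := L 3 4 (by decide)
  have tot := ((((((((((((((p1.add p2).add p3).add p4).add p5).add p6).add p7).add p8).add
    p9).add p10).add p11).add p12).add p13).add p14).add p15)
  rw [Int.even_iff] at tot
  clear p1 p2 p3 p4 p5 p6 p7 p8 p9 p10 p11 p12 p13 p14 p15 P L h hx hend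
  omega

/-- the polygonal path through `g (n+1), …, g (n+N)` -/
def polyList (g : ℕ → ℝ × ℝ) : ℕ → ℕ → List (ℝ × ℝ)
  | _, 0 => []
  | n, N + 1 => g (n + 1) :: polyList g (n + 1) N

lemma endp_polyList (g : ℕ → ℝ × ℝ) : ∀ N n, endp (g n) (polyList g n N) = g (n + N)
  | 0, n => rfl
  | N + 1, n => by
    simp only [polyList, endp]
    rw [endp_polyList g N (n + 1)]
    congr 1
    ring

lemma mem_segs_polyList (g : ℕ → ℝ × ℝ) : ∀ N n, ∀ s ∈ segs (g n) (polyList g n N),
    ∃ k, n ≤ k ∧ k < n + N ∧ s = (g k, g (k + 1))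
  | 0, n, s, hs => by simp [polyList, segs] at hs
  | N + 1, n, s, hs => by
    simp only [polyList, segs, List.mem_cons] at hs
    rcases hs with rfl | hs
    · exact ⟨n, le_refl _, by omega, rfl⟩
    · obtain ⟨k, h1, h2, h3⟩ := mem_segs_polyList g N (n + 1) s hs
      exact ⟨k, by omega, by omega, h3⟩

lemma endp_map (T : ℝ × ℝ → ℝ × ℝ) : ∀ (l : List (ℝ × ℝ)) (a : ℝ × ℝ),
    endp (T a) (l.map T) = T (endp a l)
  | [], a => rfl
  | b :: l, a => by simp only [List.map_cons, endp]; exact endp_map T l b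

lemma segs_map (T : ℝ × ℝ → ℝ × ℝ) : ∀ (l : List (ℝ × ℝ)) (a : ℝ × ℝ),
    segs (T a) (l.map T) = (segs a l).map (fun s => (T s.1, T s.2))
  | [], a => rfl
  | b :: l, a => by
    simp only [List.map_cons, segs]
    rw [segs_map T l b]

/-- shear -/
noncomputable def shear (ε : ℝ) : (ℝ × ℝ) →ₗ[ℝ] (ℝ × ℝ) where
  toFun p := (p.1 + ε * p.2, p.2)
  map_add' p q := by
    apply Prod.ext
    · simp only [Prod.fst_add, Prod.snd_add]; ring
    · simp
  map_smul' c p := by
    apply Prod.ext
    · simp only [Prod.smul_fst, Prod.smul_snd, smul_eq_mul, RingHom.id_apply]; ring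
    · simp

lemma shear_apply (ε : ℝ) (p : ℝ × ℝ) : shear ε p = (p.1 + ε * p.2, p.2) := rfl

lemma shear_injective (ε : ℝ) : Function.Injective (shear ε) := by
  intro p q h
  simp only [shear_apply, Prod.mk.injEq] at h
  apply Prod.ext
  · have := h.1
    rw [h.2] at this
    linarith
  · exact h.2

lemma exists_shear_finite (F : Set (ℝ × ℝ)) (hF : F.Finite) :
    ∃ ε : ℝ, ∀ p ∈ F, ∀ q ∈ F, p ≠ q → (shear ε p).1 ≠ (shear ε q).1 := by
  let bad : Set ℝ := (fun p : (ℝ × ℝ) × (ℝ × ℝ) =>
    -(p.1.1 - p.2.1) / (p.1.2 - p.2.2)) '' (F ×ˢ F)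
  have hbad : bad.Finite := (hF.prod hF).image _
  obtain ⟨ε, hε⟩ := hbad.exists_notMem
  refine ⟨ε, fun p hp q hq hne h => ?_⟩
  simp only [shear_apply] at h
  by_cases h2 : p.2 = q.2
  · apply hne
    apply Prod.ext
    · rw [h2] at h
      linarith
    · exact h2
  · apply hε
    refine ⟨(p, q), ⟨hp, hq⟩, ?_⟩
    simp only
    rw [div_eq_iff (sub_ne_zero.2 h2)]
    linarith

lemma disjoint_shear (ε : ℝ) {a b c d : ℝ × ℝ} (h : Disjoint (segment ℝ a b) (segment ℝ c d)) :
    Disjoint (segment ℝ (shear ε a) (shear ε b)) (segment ℝ (shear ε c) (shear ε d)) := by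
  have h1 := image_segment ℝ (shear ε).toAffineMap a b
  have h2 := image_segment ℝ (shear ε).toAffineMap c d
  simp only [LinearMap.coe_toAffineMap] at h1 h2
  rw [← h1, ← h2]
  exact (Set.disjoint_image_iff (shear_injective ε)).2 h

/-- Five points in the plane cannot be joined by ten curves such that curves belonging to
disjoint pairs are disjoint. -/
theorem no_K5_continuous (x : Fin 5 → ℝ × ℝ) (γ : ∀ i j, Path (x i) (x j))
    (h : ∀ i j k m : Fin 5, i ≠ j → k ≠ m → i ≠ k → i ≠ m → j ≠ k → j ≠ m →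
      Disjoint (Set.range (γ i j)) (Set.range (γ k m))) : False := by
  classical
  -- thickenings
  have hth : ∀ q : Fin 5 × Fin 5 × Fin 5 × Fin 5, ∃ δ : ℝ, 0 < δ ∧
      (q.1 ≠ q.2.1 → q.2.2.1 ≠ q.2.2.2 → q.1 ≠ q.2.2.1 → q.1 ≠ q.2.2.2 →
        q.2.1 ≠ q.2.2.1 → q.2.1 ≠ q.2.2.2 →
        Disjoint (Metric.thickening δ (Set.range (γ q.1 q.2.1)))
          (Metric.thickening δ (Set.range (γ q.2.2.1 q.2.2.2)))) := by
    rintro ⟨i, j, k, m⟩
    by_cases hc : i ≠ j ∧ k ≠ m ∧ i ≠ k ∧ i ≠ m ∧ j ≠ k ∧ j ≠ m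
    · obtain ⟨h1, h2, h3, h4, h5, h6⟩ := hc
      obtain ⟨δ, hδ, hd⟩ := (h i j k m h1 h2 h3 h4 h5 h6).exists_thickenings
        (isCompact_range (γ i j).continuous) (isCompact_range (γ k m).continuous).isClosed
      exact ⟨δ, hδ, fun _ _ _ _ _ _ => hd⟩
    · refine ⟨1, one_pos, fun h1 h2 h3 h4 h5 h6 => absurd ⟨h1, h2, h3, h4, h5, h6⟩ hc⟩
  choose δf hδf hδd using hth
  obtain ⟨δ, hδpos, hδ⟩ : ∃ δ : ℝ, 0 < δ ∧ ∀ q, δ ≤ δf q := by
    obtain ⟨q0, -, hq0⟩ := Finset.exists_min_image (Finset.univ : Finset (Fin 5 × Fin 5 × Fin 5 × Fin 5))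
      δf ⟨(0, 0, 0, 0), Finset.mem_univ _⟩
    exact ⟨δf q0, hδf q0, fun q => hq0 q (Finset.mem_univ _)⟩
  have hdis : ∀ i j k m : Fin 5, i ≠ j → k ≠ m → i ≠ k → i ≠ m → j ≠ k → j ≠ m →
      Disjoint (Metric.thickening δ (Set.range (γ i j)))
        (Metric.thickening δ (Set.range (γ k m))) := by
    intro i j k m h1 h2 h3 h4 h5 h6
    exact (hδd (i, j, k, m) h1 h2 h3 h4 h5 h6).mono (Metric.thickening_mono (hδ _) _)
      (Metric.thickening_mono (hδ _) _)
  -- fine subdivisions
  have hN : ∀ i j : Fin 5, ∃ N : ℕ, 0 < N ∧ ∀ k : ℕ,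
      dist ((γ i j).extend ((k : ℝ) / N)) ((γ i j).extend (((k + 1 : ℕ) : ℝ) / N)) < δ := by
    intro i j
    have huc : UniformContinuous (γ i j).extend := by
      have h1 := CompactSpace.uniformContinuous_of_continuous (γ i j).continuous
      have h2 := (LipschitzWith.projIcc (zero_le_one (α := ℝ))).uniformContinuous
      exact h1.comp h2
    rw [Metric.uniformContinuous_iff] at huc
    obtain ⟨η, hη, hη'⟩ := huc δ hδpos
    obtain ⟨N, hN⟩ := exists_nat_gt (1 / η)
    have hNpos : (0 : ℝ) < N := lt_trans (by positivity) hN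
    refine ⟨N, by exact_mod_cast hNpos, fun k => hη' ?_⟩
    rw [Real.dist_eq]
    have : (k : ℝ) / N - ((k + 1 : ℕ) : ℝ) / N = - (1 / N) := by
      push_cast
      field_simp
      ring
    rw [this, abs_neg, abs_of_pos (by positivity)]
    rw [div_lt_iff₀ hη] at hN
    rw [div_lt_iff₀ hNpos]
    linarith
  choose N hNpos hN' using hN
  let g : Fin 5 → Fin 5 → ℕ → ℝ × ℝ := fun i j k => (γ i j).extend ((k : ℝ) / N i j)
  have hg0 : ∀ i j, g i j 0 = x i := by intro i j; simp [g]
  have hgN : ∀ i j, g i j (N i j) = x j := by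
    intro i j
    have : ((N i j : ℕ) : ℝ) ≠ 0 := by exact_mod_cast (hNpos i j).ne'
    simp only [g]
    rw [div_self this]
    simp
  have hgr : ∀ i j k, g i j k ∈ Set.range (γ i j) := by
    intro i j k
    rw [← (γ i j).extend_range]
    exact ⟨_, rfl⟩
  have hseg : ∀ i j k, segment ℝ (g i j k) (g i j (k + 1)) ⊆
      Metric.thickening δ (Set.range (γ i j)) := by
    intro i j k
    have h1 : segment ℝ (g i j k) (g i j (k + 1)) ⊆ Metric.ball (g i j k) δ := by
      apply (convex_ball (g i j k) δ).segment_subset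
      · exact Metric.mem_ball_self hδpos
      · rw [Metric.mem_ball, dist_comm]
        exact hN' i j k
    exact h1.trans (Metric.ball_subset_thickening (hgr i j k) δ)
  -- all vertices
  let F : Set (ℝ × ℝ) := ⋃ i : Fin 5, ⋃ j : Fin 5, (g i j) '' (Set.Iic (N i j))
  have hF : F.Finite := Set.finite_iUnion fun i => Set.finite_iUnion fun j =>
    (Set.finite_Iic _).image _
  have hgF : ∀ i j k, k ≤ N i j → g i j k ∈ F := by
    intro i j k hk
    exact Set.mem_iUnion.2 ⟨i, Set.mem_iUnion.2 ⟨j, ⟨k, hk, rfl⟩⟩⟩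
  obtain ⟨ε, hε⟩ := exists_shear_finite F hF
  have hxF : ∀ i, x i ∈ F := by
    intro i
    rw [← hg0 i i]
    exact hgF i i 0 (Nat.zero_le _)
  have hxne : ∀ i j, i ≠ j → x i ≠ x j := by
    -- choose other indices
    have key : ∀ i j : Fin 5, i ≠ j → ∃ k m : Fin 5, i ≠ k ∧ k ≠ j ∧ j ≠ m ∧ i ≠ m ∧ k ≠ m := by
      decide
    intro i j hij heq
    obtain ⟨k, m, h1, h2, h3, h4, h5⟩ := key i j hij
    have := h i k j m h1 h3 hij h4 h2 h5
    rw [Set.disjoint_left] at this
    exact this ⟨0, (γ i k).source⟩ ⟨0, by rw [(γ j m).source, heq]⟩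
  refine no_K5_polygonal (fun i => shear ε (x i))
    (fun i j => (polyList (g i j) 0 (N i j)).map (shear ε)) ?_ ?_ ?_
  · intro i j _
    rw [endp_map, ← hg0 i j, endp_polyList, zero_add, hgN]
  · intro i j hij
    exact hε _ (hxF i) _ (hxF j) (hxne i j hij)
  · intro i j k m hij hkm h1 h2 h3 h4 s hs t ht
    rw [segs_map, List.mem_map] at hs ht
    obtain ⟨s, hs, rfl⟩ := hs
    obtain ⟨t, ht, rfl⟩ := ht
    rw [← hg0 i j] at hs
    rw [← hg0 k m] at ht
    obtain ⟨a, -, ha, rfl⟩ := mem_segs_polyList _ _ _ s hs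
    obtain ⟨b, -, hb, rfl⟩ := mem_segs_polyList _ _ _ t ht
    rw [zero_add] at ha hb
    have hd := hdis i j k m hij.ne hkm.ne h1 h2 h3 h4
    have hd' : Disjoint (segment ℝ (g k m b) (g k m (b + 1)))
        (segment ℝ (g i j a) (g i j (a + 1))) :=
      (hd.mono (hseg i j a) (hseg k m b)).symm
    have hne : ∀ z ∈ segment ℝ (g k m b) (g k m (b + 1)),
        ∀ w ∈ segment ℝ (g i j a) (g i j (a + 1)), w ≠ z := by
      rintro z hz w hw rfl
      rw [Set.disjoint_left] at hd'
      exact hd' hz hw
    have ml := left_mem_segment ℝ (g i j a) (g i j (a + 1))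
    have mr := right_mem_segment ℝ (g i j a) (g i j (a + 1))
    have nl := left_mem_segment ℝ (g k m b) (g k m (b + 1))
    have nr := right_mem_segment ℝ (g k m b) (g k m (b + 1))
    exact ⟨disjoint_shear ε hd',
      hε _ (hgF i j a ha.le) _ (hgF k m b hb.le) (hne _ nl _ ml),
      hε _ (hgF i j a ha.le) _ (hgF k m (b + 1) hb) (hne _ nr _ ml),
      hε _ (hgF i j (a + 1) ha) _ (hgF k m b hb.le) (hne _ nl _ mr),
      hε _ (hgF i j (a + 1) ha) _ (hgF k m (b + 1) hb) (hne _ nr _ mr)⟩

/-! ## Many edges force a minor of the complete graph on five vertices -/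

section mader

open Relation

variable {V : Type*}

/-- `B` is connected in the graph with adjacency `R`. -/
def Conn (R : V → V → Prop) (B : Set V) : Prop :=
  ∀ a ∈ B, ∀ b ∈ B, ReflTransGen (fun x y => R x y ∧ x ∈ B ∧ y ∈ B) a b

/-- `G` has a `K₅` minor, given by its branch sets. -/
def HasK5 (G : SimpleGraph V) : Prop :=
  ∃ B : Fin 5 → Set V, (∀ i, (B i).Nonempty) ∧ (∀ i, Conn G.Adj (B i)) ∧
    (∀ i j, i ≠ j → Disjoint (B i) (B j)) ∧
    ∀ i j, i ≠ j → ∃ x ∈ B i, ∃ y ∈ B j, G.Adj x y

lemma HasK5.mono {G H : SimpleGraph V} (h : ∀ x y, G.Adj x y → H.Adj x y) (hG : HasK5 G) :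
    HasK5 H := by
  obtain ⟨B, h1, h2, h3, h4⟩ := hG
  refine ⟨B, h1, ?_, h3, ?_⟩
  · intro i a ha b hb
    exact Relation.ReflTransGen.mono (fun x y hxy => ⟨h _ _ hxy.1, hxy.2⟩) a b (h2 i a ha b hb)
  · intro i j hij
    obtain ⟨x, hx, y, hy, hxy⟩ := h4 i j hij
    exact ⟨x, hx, y, hy, h _ _ hxy⟩

/-- contraction of `v` into `u` -/
def contr (G : SimpleGraph V) (u v : V) : SimpleGraph V where
  Adj x y := x ≠ y ∧ x ≠ v ∧ y ≠ v ∧ (G.Adj x y ∨ (x = u ∧ G.Adj v y) ∨ (y = u ∧ G.Adj v x))
  symm := ⟨by
    rintro x y ⟨h1, h2, h3, h4⟩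
    refine ⟨h1.symm, h3, h2, ?_⟩
    rcases h4 with h | h | h
    · exact Or.inl h.symm
    · exact Or.inr (Or.inr h)
    · exact Or.inr (Or.inl h)⟩
  loopless := ⟨fun x h => h.1 rfl⟩

lemma HasK5.of_contr {G : SimpleGraph V} {u v : V} (huv : G.Adj u v) (h : HasK5 (contr G u v)) :
    HasK5 G := by
  classical
  obtain ⟨B, h1, h2, h3, h4⟩ := h
  -- `v` lies in no branch set
  have hv : ∀ i, v ∉ B i := by
    intro i hvi
    have key : ∀ i : Fin 5, ∃ j : Fin 5, i ≠ j := by decide
    obtain ⟨j, hij⟩ := key i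
    obtain ⟨x, hx, y, hy, hxy⟩ := h4 i j hij
    have hxv : x ≠ v := hxy.2.1
    have := h2 i v hvi x hx
    rcases ReflTransGen.cases_head this with heq | ⟨c, hc, -⟩
    · exact hxv heq.symm
    · exact hc.1.2.1 rfl
  let B' : Fin 5 → Set V := fun i => B i ∪ {x | x = v ∧ u ∈ B i}
  have hsub : ∀ i, B i ⊆ B' i := fun i => Set.subset_union_left
  have hvB' : ∀ i, u ∈ B i → v ∈ B' i := fun i hu => Or.inr ⟨rfl, hu⟩
  have step : ∀ i x y, (contr G u v).Adj x y → x ∈ B i → y ∈ B i →
      ReflTransGen (fun x y => G.Adj x y ∧ x ∈ B' i ∧ y ∈ B' i) x y := by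
    intro i x y hxy hx hy
    rcases hxy.2.2.2 with h | ⟨h, h'⟩ | ⟨h, h'⟩
    · exact ReflTransGen.single ⟨h, hsub i hx, hsub i hy⟩
    · subst h
      exact (ReflTransGen.single ⟨huv, hsub i hx, hvB' i hx⟩).trans
        (ReflTransGen.single ⟨h', hvB' i hx, hsub i hy⟩)
    · subst h
      exact (ReflTransGen.single ⟨h'.symm, hsub i hx, hvB' i hy⟩).trans
        (ReflTransGen.single ⟨huv.symm, hvB' i hy, hsub i hy⟩)
  have conn : ∀ i a b, a ∈ B i → b ∈ B i →
      ReflTransGen (fun x y => G.Adj x y ∧ x ∈ B' i ∧ y ∈ B' i) a b := by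
    intro i a b ha hb
    have := h2 i a ha b hb
    induction this with
    | refl => exact ReflTransGen.refl
    | tail _ hbc ih => exact (ih hbc.2.1).trans (step i _ _ hbc.1 hbc.2.1 hbc.2.2)
  refine ⟨B', fun i => (h1 i).mono (hsub i), ?_, ?_, ?_⟩
  · intro i a ha b hb
    rcases ha with ha | ⟨rfl, hu⟩
    · rcases hb with hb | ⟨rfl, hu⟩
      · exact conn i a b ha hb
      · exact (conn i a u ha hu).trans (ReflTransGen.single ⟨huv, hsub i hu, hvB' i hu⟩)
    · rcases hb with hb | ⟨rfl, hu'⟩
      · exact (ReflTransGen.single ⟨huv.symm, hvB' i hu, hsub i hu⟩).trans (conn i u b hu hb)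
      · exact ReflTransGen.refl
  · intro i j hij
    rw [Set.disjoint_left]
    intro x hx hx'
    have hd := h3 i j hij
    rw [Set.disjoint_left] at hd
    rcases hx with hx | ⟨rfl, hu⟩
    · rcases hx' with hx' | ⟨rfl, hu'⟩
      · exact hd hx hx'
      · exact hv i hx
    · rcases hx' with hx' | ⟨-, hu'⟩
      · exact hv j hx'
      · exact hd hu hu'
  · intro i j hij
    obtain ⟨x, hx, y, hy, hxy⟩ := h4 i j hij
    rcases hxy.2.2.2 with h | ⟨h, h'⟩ | ⟨h, h'⟩
    · exact ⟨x, hsub i hx, y, hsub j hy, h⟩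
    · subst h
      exact ⟨v, hvB' i hx, y, hsub j hy, h'⟩
    · subst h
      exact ⟨x, hsub i hx, v, hvB' j hy, h'.symm⟩

lemma hasK5_of_clique {G : SimpleGraph V} (w : Fin 5 → V) (h : ∀ i j, i ≠ j → G.Adj (w i) (w j)) :
    HasK5 G := by
  refine ⟨fun i => {w i}, fun i => Set.singleton_nonempty _, ?_, ?_, ?_⟩
  · rintro i a ha b hb
    rw [Set.mem_singleton_iff] at ha hb
    subst ha; subst hb
    exact ReflTransGen.refl
  · intro i j hij
    rw [Set.disjoint_singleton]
    exact (h i j hij).ne
  · intro i j hij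
    exact ⟨_, rfl, _, rfl, h i j hij⟩

/-- local configuration with five neighbours -/
lemma hasK5_of_five {G : SimpleGraph V} (v : V) (e : Fin 5 → V) (he : Function.Injective e)
    (hv : ∀ i, G.Adj v (e i))
    (hm : ∀ i j k, i ≠ j → i ≠ k → ¬ G.Adj (e i) (e j) → ¬ G.Adj (e i) (e k) → j = k) :
    HasK5 G := by
  classical
  by_cases hA : ∀ i j, i ≠ j → G.Adj (e i) (e j)
  · exact hasK5_of_clique e hA
  push Not at hA
  obtain ⟨i₀, j₀, hij, hmiss⟩ := hA
  have hmiss' : ¬ G.Adj (e j₀) (e i₀) := fun h => hmiss h.symm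
  by_cases hB : ∃ k l, k ≠ l ∧ ¬ G.Adj (e k) (e l) ∧ k ≠ i₀ ∧ k ≠ j₀
  · obtain ⟨k₀, l₀, hkl, hmk, hki, hkj⟩ := hB
    have hmk' : ¬ G.Adj (e l₀) (e k₀) := fun h => hmk h.symm
    have hli : l₀ ≠ i₀ := by
      rintro rfl
      exact hkj.symm (hm l₀ j₀ k₀ hij hkl.symm hmiss hmk')
    have hlj : l₀ ≠ j₀ := by
      rintro rfl
      exact hki.symm (hm l₀ i₀ k₀ hij.symm hkl.symm hmiss' hmk')
    let B : Fin 5 → Set V := fun k => if k = i₀ then {e i₀, e k₀} else if k = k₀ then {v} else {e k}
    have Bi : B i₀ = {e i₀, e k₀} := by simp [B]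
    have Bk : B k₀ = {v} := by simp [B, hki]
    have Bo : ∀ l, l ≠ i₀ → l ≠ k₀ → B l = {e l} := by intro l h1 h2; simp [B, h1, h2]
    have adj_i : ∀ l, l ≠ i₀ → l ≠ j₀ → G.Adj (e i₀) (e l) := by
      intro l h1 h2
      by_contra hcon
      exact h2 (hm i₀ l j₀ h1.symm hij hcon hmiss)
    have adj_k : ∀ l, l ≠ k₀ → l ≠ l₀ → G.Adj (e k₀) (e l) := by
      intro l h1 h2
      by_contra hcon
      exact h2 (hm k₀ l l₀ h1.symm hkl hcon hmk)
    have adj_j : ∀ l, l ≠ j₀ → l ≠ i₀ → G.Adj (e j₀) (e l) := by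
      intro l h1 h2
      by_contra hcon
      exact h2 (hm j₀ l i₀ h1.symm hij.symm hcon hmiss')
    have adj_l : ∀ l, l ≠ l₀ → l ≠ k₀ → G.Adj (e l₀) (e l) := by
      intro l h1 h2
      by_contra hcon
      exact h2 (hm l₀ l k₀ h1.symm hkl.symm hcon hmk')
    -- adjacency of branch sets, up to symmetry
    have A : ∀ a b, a ≠ b → (∃ x ∈ B a, ∃ y ∈ B b, G.Adj x y) := by
      have A1 : ∀ b, b ≠ i₀ → ∃ x ∈ B i₀, ∃ y ∈ B b, G.Adj x y := by
        intro b hb
        rw [Bi]
        by_cases hbk : b = k₀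
        · subst hbk
          rw [Bk]
          exact ⟨e i₀, by simp, v, rfl, (hv i₀).symm⟩
        · rw [Bo b hb hbk]
          by_cases hbj : b = j₀
          · subst hbj
            exact ⟨e k₀, by simp, e b, rfl, adj_k b hbk hlj.symm⟩
          · exact ⟨e i₀, by simp, e b, rfl, adj_i b hb hbj⟩
      have A2 : ∀ b, b ≠ i₀ → b ≠ k₀ → ∃ x ∈ B k₀, ∃ y ∈ B b, G.Adj x y := by
        intro b hb hbk
        rw [Bk, Bo b hb hbk]
        exact ⟨v, rfl, e b, rfl, hv b⟩
      have A3 : ∀ a b, a ≠ b → a ≠ i₀ → a ≠ k₀ → b ≠ i₀ → b ≠ k₀ →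
          ∃ x ∈ B a, ∃ y ∈ B b, G.Adj x y := by
        intro a b hab h1 h2 h3 h4
        rw [Bo a h1 h2, Bo b h3 h4]
        refine ⟨e a, rfl, e b, rfl, ?_⟩
        by_cases haj : a = j₀
        · subst haj; exact adj_j b hab.symm h3
        by_cases hbj : b = j₀
        · subst hbj; exact (adj_j a hab h1).symm
        by_cases hal : a = l₀
        · subst hal; exact adj_l b hab.symm h4
        by_cases hbl : b = l₀
        · subst hbl; exact (adj_l a hab h2).symm
        -- six distinct elements of `Fin 5`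
        exfalso
        have hcard : ({i₀, j₀, k₀, l₀, a, b} : Finset (Fin 5)).card = 6 := by
          rw [Finset.card_insert_of_notMem, Finset.card_insert_of_notMem,
            Finset.card_insert_of_notMem, Finset.card_insert_of_notMem,
            Finset.card_insert_of_notMem, Finset.card_singleton]
          · simpa using hab
          · simp only [Finset.mem_insert, Finset.mem_singleton, not_or]
            exact ⟨fun h => hal h.symm, fun h => hbl h.symm⟩
          · simp only [Finset.mem_insert, Finset.mem_singleton, not_or]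
            exact ⟨hkl, h2.symm, h4.symm⟩
          · simp only [Finset.mem_insert, Finset.mem_singleton, not_or]
            exact ⟨hkj.symm, hlj.symm, fun h => haj h.symm, fun h => hbj h.symm⟩
          · simp only [Finset.mem_insert, Finset.mem_singleton, not_or]
            exact ⟨hij, hki.symm, hli.symm, h1.symm, h3.symm⟩
        have := Finset.card_le_univ ({i₀, j₀, k₀, l₀, a, b} : Finset (Fin 5))
        rw [hcard, Fintype.card_fin] at this
        omega
      have symm' : ∀ a b, (∃ x ∈ B a, ∃ y ∈ B b, G.Adj x y) → (∃ x ∈ B b, ∃ y ∈ B a, G.Adj x y) := by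
        rintro a b ⟨x, hx, y, hy, hxy⟩
        exact ⟨y, hy, x, hx, hxy.symm⟩
      intro a b hab
      by_cases ha : a = i₀
      · subst ha; exact A1 b hab.symm
      by_cases hb : b = i₀
      · subst hb; exact symm' _ _ (A1 a hab)
      by_cases ha' : a = k₀
      · subst ha'; exact A2 b hb hab.symm
      by_cases hb' : b = k₀
      · subst hb'; exact symm' _ _ (A2 a ha hab)
      exact A3 a b hab ha ha' hb hb'
    refine ⟨B, ?_, ?_, ?_, A⟩
    · intro i
      simp only [B]
      split_ifs
      · exact ⟨e i₀, by simp⟩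
      · exact Set.singleton_nonempty _
      · exact Set.singleton_nonempty _
    · intro i a ha b hb
      by_cases h1 : i = i₀
      · subst h1
        rw [Bi] at *
        have hadj : G.Adj (e i) (e k₀) := adj_i k₀ hki hkj
        simp only [Set.mem_insert_iff, Set.mem_singleton_iff] at ha hb
        rcases ha with rfl | rfl <;> rcases hb with rfl | rfl
        · exact ReflTransGen.refl
        · exact ReflTransGen.single ⟨hadj, by simp, by simp⟩
        · exact ReflTransGen.single ⟨hadj.symm, by simp, by simp⟩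
        · exact ReflTransGen.refl
      · have hsing : ∃ z, B i = {z} := by
          by_cases h2 : i = k₀
          · exact ⟨v, by rw [h2]; exact Bk⟩
          · exact ⟨e i, Bo i h1 h2⟩
        obtain ⟨z, hz⟩ := hsing
        rw [hz, Set.mem_singleton_iff] at ha hb
        subst ha; subst hb
        exact ReflTransGen.refl
    · intro i j hij'
      rw [Set.disjoint_left]
      -- every element of a branch set
      have hvne : ∀ l, v ≠ e l := fun l => (hv l).ne
      intro x hx hx'
      by_cases h1 : i = i₀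
      · subst h1
        rw [Bi] at hx
        simp only [Set.mem_insert_iff, Set.mem_singleton_iff] at hx
        by_cases h2 : j = k₀
        · subst h2
          rw [Bk, Set.mem_singleton_iff] at hx'
          subst hx'
          rcases hx with hx | hx <;> exact hvne _ hx
        · rw [Bo j hij'.symm h2, Set.mem_singleton_iff] at hx'
          subst hx'
          rcases hx with hx | hx
          · exact hij' (he hx).symm
          · exact h2 (he hx)
      · by_cases h3 : j = i₀
        · subst h3
          rw [Bi] at hx'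
          simp only [Set.mem_insert_iff, Set.mem_singleton_iff] at hx'
          by_cases h2 : i = k₀
          · subst h2
            rw [Bk, Set.mem_singleton_iff] at hx
            subst hx
            rcases hx' with hx' | hx' <;> exact hvne _ hx'
          · rw [Bo i h1 h2, Set.mem_singleton_iff] at hx
            subst hx
            rcases hx' with hx' | hx'
            · exact hij' (he hx')
            · exact h2 (he hx')
        · by_cases h2 : i = k₀
          · subst h2
            rw [Bk, Set.mem_singleton_iff] at hx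
            rw [Bo j h3 hij'.symm, Set.mem_singleton_iff] at hx'
            subst hx
            exact hvne _ hx'
          · rw [Bo i h1 h2, Set.mem_singleton_iff] at hx
            by_cases h4 : j = k₀
            · subst h4
              rw [Bk, Set.mem_singleton_iff] at hx'
              subst hx'
              exact hvne _ hx
            · rw [Bo j h3 h4, Set.mem_singleton_iff] at hx'
              subst hx
              exact hij' (he hx')
  · push Not at hB
    -- the only missing pair is `i₀, j₀`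
    apply hasK5_of_clique (fun k => if k = j₀ then v else e k)
    intro a b hab
    by_cases ha : a = j₀
    · subst ha
      simp only [if_true, if_neg hab.symm]
      exact hv b
    · by_cases hb : b = j₀
      · subst hb
        simp only [if_true, if_neg hab]
        exact (hv a).symm
      · simp only [if_neg ha, if_neg hb]
        by_contra hcon
        by_cases hai : a = i₀
        · subst hai
          exact hb (hm a b j₀ hab hij hcon hmiss)
        · exact ha (hB a b hab hcon hai)

/-- ordered adjacent pairs inside `S` -/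
noncomputable def prs (G : SimpleGraph V) (S : Finset V) : Finset (V × V) := by
  classical
  exact (S ×ˢ S).filter (fun p => G.Adj p.1 p.2)

lemma mem_prs {G : SimpleGraph V} {S : Finset V} {p : V × V} :
    p ∈ prs G S ↔ (p.1 ∈ S ∧ p.2 ∈ S) ∧ G.Adj p.1 p.2 := by
  classical
  unfold prs
  rw [Finset.mem_filter, Finset.mem_product]

/-- neighbours of `x` inside `S` -/
noncomputable def nb (G : SimpleGraph V) (S : Finset V) (x : V) : Finset V := by
  classical
  exact S.filter (fun y => G.Adj x y)

lemma mem_nb {G : SimpleGraph V} {S : Finset V} {x y : V} :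
    y ∈ nb G S x ↔ y ∈ S ∧ G.Adj x y := by
  classical
  unfold nb
  rw [Finset.mem_filter]

lemma card_prs_eq (G : SimpleGraph V) (S : Finset V) :
    (prs G S).card = ∑ x ∈ S, (nb G S x).card := by
  classical
  rw [← Finset.card_sigma]
  apply Finset.card_bij (fun p _ => (⟨p.1, p.2⟩ : (_ : V) × V))
  · rintro ⟨x, y⟩ h
    rw [mem_prs] at h
    simp only [Finset.mem_sigma, mem_nb]
    exact ⟨h.1.1, h.1.2, h.2⟩
  · rintro ⟨x, y⟩ _ ⟨x', y'⟩ _ h
    simp only [Sigma.mk.injEq, heq_eq_eq] at h
    exact Prod.ext h.1 h.2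
  · rintro ⟨x, y⟩ h
    simp only [Finset.mem_sigma, mem_nb] at h
    exact ⟨(x, y), mem_prs.2 ⟨⟨h.1, h.2.1⟩, h.2.2⟩, rfl⟩

lemma card_prs_le (G : SimpleGraph V) (S : Finset V) :
    (prs G S).card + S.card ≤ S.card * S.card := by
  classical
  have h : Disjoint (prs G S) (S.diag) := by
    rw [Finset.disjoint_left]
    rintro ⟨x, y⟩ h1 h2
    rw [mem_prs] at h1
    rw [Finset.mem_diag] at h2
    exact h1.2.ne h2.2
  have h2 : (prs G S ∪ S.diag) ⊆ S ×ˢ S := by
    intro p hp
    rw [Finset.mem_union] at hp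
    rw [Finset.mem_product]
    rcases hp with hp | hp
    · exact (mem_prs.1 hp).1
    · rw [Finset.mem_diag] at hp
      exact ⟨hp.1, hp.2 ▸ hp.1⟩
  have := Finset.card_le_card h2
  rw [Finset.card_union_of_disjoint h, Finset.diag_card, Finset.card_product] at this
  exact this

/-- deleting a vertex -/
lemma card_prs_erase [DecidableEq V] (G : SimpleGraph V) (S : Finset V) (x : V) :
    (prs G S).card ≤ (prs G (S.erase x)).card + 2 * (nb G S x).card := by
  classical
  have : prs G S ⊆ prs G (S.erase x) ∪ ((nb G S x).image (fun y => (x, y)) ∪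
      (nb G S x).image (fun y => (y, x))) := by
    rintro ⟨a, b⟩ h
    rw [mem_prs] at h
    simp only [Finset.mem_union, Finset.mem_image, mem_nb, mem_prs, Finset.mem_erase,
      Prod.mk.injEq]
    by_cases ha : a = x
    · subst ha
      right; left
      exact ⟨b, ⟨h.1.2, h.2⟩, rfl, rfl⟩
    · by_cases hb : b = x
      · subst hb
        right; right
        exact ⟨a, ⟨h.1.1, h.2.symm⟩, rfl, rfl⟩
      · left
        exact ⟨⟨⟨ha, h.1.1⟩, ⟨hb, h.1.2⟩⟩, h.2⟩
  calc (prs G S).card ≤ _ := Finset.card_le_card this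
    _ ≤ (prs G (S.erase x)).card + ((nb G S x).card + (nb G S x).card) := by
      refine (Finset.card_union_le _ _).trans ?_
      gcongr
      refine (Finset.card_union_le _ _).trans ?_
      gcongr <;> exact Finset.card_image_le
    _ = _ := by ring

/-- common neighbours -/
noncomputable def cn (G : SimpleGraph V) (S : Finset V) (u v : V) : Finset V := by
  classical
  exact (nb G S v).filter (fun y => G.Adj u y)

lemma mem_cn {G : SimpleGraph V} {S : Finset V} {u v y : V} :
    y ∈ cn G S u v ↔ (y ∈ S ∧ G.Adj v y) ∧ G.Adj u y := by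
  classical
  unfold cn
  rw [Finset.mem_filter, mem_nb]

/-- contracting an edge -/
lemma card_prs_contr [DecidableEq V] (G : SimpleGraph V) (S : Finset V) (u v : V) (hu : u ∈ S)
    (huv : G.Adj u v) :
    (prs G S).card ≤ (prs (contr G u v) (S.erase v)).card + 2 +
      2 * (cn G S u v).card := by
  classical
  let C := cn G S u v
  let E : Finset (V × V) := {(u, v), (v, u)} ∪ (C.image (fun y => (v, y)) ∪ C.image (fun y => (y, v)))
  have hE : E.card ≤ 2 + 2 * C.card := by
    refine (Finset.card_union_le _ _).trans ?_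
    have h1 : ({(u, v), (v, u)} : Finset (V × V)).card ≤ 2 := Finset.card_le_two
    have h2 : (C.image (fun y => (v, y)) ∪ C.image (fun y => (y, v))).card ≤ C.card + C.card := by
      refine (Finset.card_union_le _ _).trans ?_
      gcongr <;> exact Finset.card_image_le
    omega
  let φ : V → V := fun w => if w = v then u else w
  have hφv : φ v = u := by simp [φ]
  have hφ : ∀ w, w ≠ v → φ w = w := by intro w hw; simp [φ, hw]
  have hnv : u ≠ v := huv.ne
  have hinj : (prs G S \ E).card ≤ (prs (contr G u v) (S.erase v)).card := by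
    apply Finset.card_le_card_of_injOn (fun p => (φ p.1, φ p.2))
    · rintro ⟨a, b⟩ hp
      rw [Finset.mem_coe, Finset.mem_sdiff, mem_prs] at hp
      obtain ⟨⟨⟨ha, hb⟩, hab⟩, hnE⟩ := hp
      simp only at ha hb hab
      have hnE1 : (a, b) ≠ (u, v) := fun h => hnE (by simp [E, h])
      have hnE2 : (a, b) ≠ (v, u) := fun h => hnE (by simp [E, h])
      rw [Finset.mem_coe, mem_prs]
      simp only [Finset.mem_erase]
      by_cases hav : a = v
      · subst hav
        have hbv : b ≠ a := hab.ne.symm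
        have hbu : b ≠ u := fun h => hnE2 (by rw [h])
        rw [hφv, hφ b hbv]
        exact ⟨⟨⟨hnv, hu⟩, ⟨hbv, hb⟩⟩, ⟨hbu.symm, hnv, hbv, Or.inr (Or.inl ⟨rfl, hab⟩)⟩⟩
      · by_cases hbv : b = v
        · subst hbv
          have hau : a ≠ u := fun h => hnE1 (by rw [h])
          rw [hφv, hφ a hav]
          exact ⟨⟨⟨hav, ha⟩, ⟨hnv, hu⟩⟩, ⟨hau, hav, hnv, Or.inr (Or.inr ⟨rfl, hab.symm⟩)⟩⟩
        · rw [hφ a hav, hφ b hbv]
          exact ⟨⟨⟨hav, ha⟩, ⟨hbv, hb⟩⟩, ⟨hab.ne, hav, hbv, Or.inl hab⟩⟩
    · rintro ⟨a, b⟩ hp ⟨c, d⟩ hq heq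
      rw [Finset.mem_coe, Finset.mem_sdiff, mem_prs] at hp hq
      obtain ⟨⟨⟨ha, hb⟩, hab⟩, hnE⟩ := hp
      obtain ⟨⟨⟨hc, hd⟩, hcd⟩, hnE'⟩ := hq
      simp only [Prod.mk.injEq] at heq
      simp only at ha hb hab hc hd hcd
      have n1 : ¬ (a = u ∧ b = v) := fun h => hnE (by simp [E, h.1, h.2])
      have n2 : ¬ (a = v ∧ b = u) := fun h => hnE (by simp [E, h.1, h.2])
      have n3 : ¬ (c = u ∧ d = v) := fun h => hnE' (by simp [E, h.1, h.2])
      have n4 : ¬ (c = v ∧ d = u) := fun h => hnE' (by simp [E, h.1, h.2])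
      have cE : ∀ y, y ∈ S → G.Adj v y → G.Adj u y → y ∈ C := by
        intro y h1 h2 h3
        exact mem_cn.2 ⟨⟨h1, h2⟩, h3⟩
      have n5 : a = v → ¬ G.Adj u b := by
        rintro rfl h
        exact hnE (Finset.mem_union_right _ (Finset.mem_union_left _
          (Finset.mem_image.2 ⟨b, cE b hb hab h, rfl⟩)))
      have n6 : c = v → ¬ G.Adj u d := by
        rintro rfl h
        exact hnE' (Finset.mem_union_right _ (Finset.mem_union_left _
          (Finset.mem_image.2 ⟨d, cE d hd hcd h, rfl⟩)))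
      have n7 : b = v → ¬ G.Adj u a := by
        rintro rfl h
        exact hnE (Finset.mem_union_right _ (Finset.mem_union_right _
          (Finset.mem_image.2 ⟨a, cE a ha hab.symm h, rfl⟩)))
      have n8 : d = v → ¬ G.Adj u c := by
        rintro rfl h
        exact hnE' (Finset.mem_union_right _ (Finset.mem_union_right _
          (Finset.mem_image.2 ⟨c, cE c hc hcd.symm h, rfl⟩)))
      obtain ⟨e1, e2⟩ := heq
      by_cases hav : a = v
      · have hbv : b ≠ v := fun h => hab.ne (by rw [hav, h])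
        have hbu : b ≠ u := fun h => n2 ⟨hav, h⟩
        rw [hav, hφv] at e1
        rw [hφ b hbv] at e2
        have hdv : d ≠ v := fun h => hbu (by rw [e2, h, hφv])
        rw [hφ d hdv] at e2
        by_cases hcv : c = v
        · rw [hav, hcv, e2]
        · rw [hφ c hcv] at e1
          exfalso
          apply n5 hav
          rw [e1, e2]; exact hcd
      · rw [hφ a hav] at e1
        by_cases hcv : c = v
        · rw [hcv, hφv] at e1
          have hdv : d ≠ v := fun h => hcd.ne (by rw [hcv, h])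
          have hdu : d ≠ u := fun h => n4 ⟨hcv, h⟩
          rw [hφ d hdv] at e2
          have hbv : b ≠ v := by
            intro h
            rw [h, hφv] at e2
            exact hdu e2.symm
          rw [hφ b hbv] at e2
          exfalso
          apply n6 hcv
          rw [← e2, ← e1]; exact hab
        · rw [hφ c hcv] at e1
          by_cases hbv : b = v
          · rw [hbv, hφv] at e2
            by_cases hdv : d = v
            · rw [e1, hbv, hdv]
            · rw [hφ d hdv] at e2
              exfalso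
              apply n7 hbv
              rw [e2, e1]; exact hcd.symm
          · rw [hφ b hbv] at e2
            by_cases hdv : d = v
            · rw [hdv, hφv] at e2
              exfalso
              apply n8 hdv
              rw [← e2, ← e1]; exact hab.symm
            · rw [hφ d hdv] at e2
              rw [e1, e2]
  have hsplit : (prs G S).card ≤ (prs G S \ E).card + E.card := by
    have : prs G S ⊆ (prs G S \ E) ∪ E := by
      intro p hp
      by_cases h : p ∈ E
      · exact Finset.mem_union_right _ h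
      · exact Finset.mem_union_left _ (Finset.mem_sdiff.2 ⟨hp, h⟩)
    exact (Finset.card_le_card this).trans (Finset.card_union_le _ _)
  have : C.card = (cn G S u v).card := rfl
  omega

/-- deleting an edge -/
def delE (G : SimpleGraph V) (x y : V) : SimpleGraph V where
  Adj a b := G.Adj a b ∧ ¬ (a = x ∧ b = y) ∧ ¬ (a = y ∧ b = x)
  symm := ⟨by
    rintro a b ⟨h1, h2, h3⟩
    exact ⟨h1.symm, fun h => h3 ⟨h.2, h.1⟩, fun h => h2 ⟨h.2, h.1⟩⟩⟩
  loopless := ⟨fun a h => h.1.ne rfl⟩

lemma card_prs_delE (G : SimpleGraph V) (S : Finset V) (x y : V) :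
    (prs G S).card ≤ (prs (delE G x y) S).card + 2 := by
  classical
  have : prs G S ⊆ prs (delE G x y) S ∪ {(x, y), (y, x)} := by
    rintro ⟨a, b⟩ h
    rw [mem_prs] at h
    simp only [Finset.mem_union, Finset.mem_insert, Finset.mem_singleton, Prod.mk.injEq]
    by_cases h1 : a = x ∧ b = y
    · exact Or.inr (Or.inl h1)
    · by_cases h2 : a = y ∧ b = x
      · exact Or.inr (Or.inr h2)
      · left
        exact mem_prs.2 ⟨h.1, h.2, h1, h2⟩
  refine (Finset.card_le_card this).trans ((Finset.card_union_le _ _).trans ?_)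
  have h1 : ({(x, y), (y, x)} : Finset (V × V)).card ≤ 2 := Finset.card_le_two
  omega

/-- Mader's theorem for `K₅`: many edges force a `K₅` minor. -/
theorem mader5 : ∀ (n : ℕ) (S : Finset V) (G : SimpleGraph V), S.card = n → 3 ≤ n →
    6 * n ≤ (prs G S).card + 10 → HasK5 G := by
  classical
  intro n
  induction n using Nat.strong_induction_on with
  | _ n IH =>
  intro S G hSn hn3
  induction ha : (prs G S).card using Nat.strong_induction_on generalizing G with
  | _ a IHa =>
  intro hcount
  by_cases hn5 : n < 5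
  · exfalso
    have := card_prs_le G S
    rw [hSn, ha] at this
    have hcases : n = 3 ∨ n = 4 := by omega
    rcases hcases with rfl | rfl <;> omega
  push Not at hn5
  by_cases h8 : 6 * n ≤ a + 8
  · -- delete an edge
    have hpos : 0 < (prs G S).card := by omega
    obtain ⟨⟨x, y⟩, hxy⟩ := Finset.card_pos.1 hpos
    have h1 := card_prs_delE G S x y
    have h2 : (prs (delE G x y) S).card < (prs G S).card := by
      apply Finset.card_lt_card
      rw [Finset.ssubset_iff_of_subset]
      · refine ⟨(x, y), hxy, ?_⟩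
        rw [mem_prs]
        rintro ⟨-, h⟩
        exact h.2.1 ⟨rfl, rfl⟩
      · intro p hp
        rw [mem_prs] at hp ⊢
        exact ⟨hp.1, hp.2.1⟩
    have := IHa _ (by rw [← ha]; exact h2) (delE G x y) rfl (by omega)
    exact HasK5.mono (G := delE G x y) (H := G) (fun a b h => h.1) this
  push Not at h8
  by_contra hcon
  -- a vertex of degree at most five
  obtain ⟨v, hvS, hv5⟩ : ∃ v ∈ S, (nb G S v).card ≤ 5 := by
    by_contra hall
    push Not at hall
    have h1 : ∑ _x ∈ S, 6 ≤ ∑ x ∈ S, (nb G S x).card :=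
      Finset.sum_le_sum (fun x hx => hall x hx)
    rw [← card_prs_eq, Finset.sum_const, smul_eq_mul, hSn, ha] at h1
    omega
  -- minimum degree at least four
  have hmin : ∀ x ∈ S, 4 ≤ (nb G S x).card := by
    intro x hx
    by_contra hlt
    push Not at hlt
    have h1 := card_prs_erase G S x
    have h2 : (S.erase x).card = n - 1 := by rw [Finset.card_erase_of_mem hx, hSn]
    exact hcon (IH (n - 1) (by omega) (S.erase x) G h2 (by omega) (by omega))
  have hv4 := hmin v hvS
  -- common neighbours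
  have hcn : ∀ x ∈ nb G S v, 3 ≤ (cn G S x v).card := by
    intro x hx
    rw [mem_nb] at hx
    by_contra hlt
    push Not at hlt
    have h1 := card_prs_contr G S x v hx.1 hx.2.symm
    have h2 : (S.erase v).card = n - 1 := by rw [Finset.card_erase_of_mem hvS, hSn]
    exact hcon (HasK5.of_contr hx.2.symm
      (IH (n - 1) (by omega) (S.erase v) (contr G x v) h2 (by omega) (by omega)))
  have hsub : ∀ x, cn G S x v ⊆ (nb G S v).erase x := by
    intro x y hy
    rw [mem_cn] at hy
    rw [Finset.mem_erase, mem_nb]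
    exact ⟨hy.2.ne.symm, hy.1⟩
  have hdeg : (nb G S v).card = 4 ∨ (nb G S v).card = 5 := by omega
  apply hcon
  rcases hdeg with h4 | h5
  · -- a clique with `v`
    let e := (Finset.equivFinOfCardEq h4).symm
    have hadj : ∀ x ∈ nb G S v, ∀ y ∈ nb G S v, x ≠ y → G.Adj x y := by
      intro x hx y hy hxy
      have h1 : cn G S x v = (nb G S v).erase x := by
        apply Finset.eq_of_subset_of_card_le (hsub x)
        rw [Finset.card_erase_of_mem hx, h4]
        exact hcn x hx
      have h2 : y ∈ cn G S x v := by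
        rw [h1, Finset.mem_erase]; exact ⟨hxy.symm, hy⟩
      exact (mem_cn.1 h2).2
    have hva : ∀ i, G.Adj v (e i) := fun i => (mem_nb.1 (e i).2).2
    apply hasK5_of_clique (Fin.cons v (fun i => ((e i : V))) : Fin 5 → V)
    intro i j hij
    induction i using Fin.cases with
    | zero =>
      induction j using Fin.cases with
      | zero => exact absurd rfl hij
      | succ j => simpa using hva j
    | succ i =>
      induction j using Fin.cases with
      | zero => simpa using (hva i).symm
      | succ j =>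
        simp only [Fin.cons_succ]
        apply hadj _ (e i).2 _ (e j).2
        intro h
        exact hij (by rw [e.injective (Subtype.ext h)])
  · let e := (Finset.equivFinOfCardEq h5).symm
    apply hasK5_of_five v (fun i => ((e i : V)))
    · intro i j hij
      exact e.injective (Subtype.ext hij)
    · intro i
      exact (mem_nb.1 (e i).2).2
    · intro i j k hij hik hnj hnk
      by_contra hjk
      have hne : ∀ a b, a ≠ b → (e a : V) ≠ e b := fun a b hab h => hab (e.injective (Subtype.ext h))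
      have h1 : cn G S (e i) v ⊆ (((nb G S v).erase (e i)).erase (e j)).erase (e k) := by
        intro y hy
        have hy' := hsub _ hy
        rw [mem_cn] at hy
        rw [Finset.mem_erase, Finset.mem_erase]
        refine ⟨?_, ?_, hy'⟩
        · rintro rfl; exact hnk hy.2
        · rintro rfl; exact hnj hy.2
      have h2 := Finset.card_le_card h1
      rw [Finset.card_erase_of_mem, Finset.card_erase_of_mem, Finset.card_erase_of_mem (e i).2, h5]
        at h2
      · have := hcn _ (e i).2
        omega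
      · rw [Finset.mem_erase]; exact ⟨hne _ _ hij.symm, (e j).2⟩
      · rw [Finset.mem_erase, Finset.mem_erase]
        exact ⟨hne _ _ (Ne.symm hjk), hne _ _ hik.symm, (e k).2⟩

end mader

/-! ## Planar graphs are sparse -/

/-- the part of the drawing spanned by the vertex set `W` -/
def dr {V : Type*} (G : SimpleGraph V) (f : V → ℝ × ℝ) (arc : Sym2 V → Set (ℝ × ℝ)) (W : Set V) :
    Set (ℝ × ℝ) :=
  {z | (∃ w ∈ W, f w = z) ∨ ∃ e ∈ G.edgeSet, (∀ w ∈ e, w ∈ W) ∧ z ∈ arc e}

theorem not_hasK5 {V : Type*} (G : SimpleGraph V) (hG : IsPlanar G) : ¬ HasK5 G := by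
  classical
  rintro ⟨B, h1, h2, h3, h4⟩
  obtain ⟨f, arc, hf, harc, hva, hee⟩ := hG
  -- disjointness
  have hdis : ∀ W W' : Set V, Disjoint W W' → Disjoint (dr G f arc W) (dr G f arc W') := by
    intro W W' hW
    rw [Set.disjoint_left] at hW ⊢
    rintro z (⟨w, hw, rfl⟩ | ⟨e, he, heW, hze⟩) (⟨w', hw', hz⟩ | ⟨e', he', heW', hze'⟩)
    · rw [hf hz] at hw'
      exact hW hw hw'
    · exact hW hw (heW' w (hva e' he' w hze'))
    · rw [← hz] at hze
      exact hW (heW w' (hva e he w' hze)) hw'
    · have hne : e ≠ e' := by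
        rintro rfl
        induction e using Sym2.ind with
        | _ a b => exact hW (heW a (by simp)) (heW' a (by simp))
      obtain ⟨w, hw, hw', -⟩ := hee e he e' he' hne z ⟨hze, hze'⟩
      exact hW (heW w hw) (heW' w hw')
  -- connectivity
  have hjoin : ∀ (W : Set V) (a b : V), a ∈ W → b ∈ W → G.Adj a b →
      JoinedIn (dr G f arc W) (f a) (f b) := by
    intro W a b ha hb hab
    obtain ⟨c, c1, -, c3, c4, c5⟩ := harc a b hab
    refine JoinedIn.ofLine c1 c3 c4 ?_
    rw [show unitInterval = Set.Icc (0 : ℝ) 1 from rfl, c5]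
    intro z hz
    right
    refine ⟨s(a, b), hab, ?_, hz⟩
    intro w hw
    rw [Sym2.mem_iff] at hw
    rcases hw with rfl | rfl
    · exact ha
    · exact hb
  have hjoin2 : ∀ (W B : Set V), B ⊆ W → Conn G.Adj B → ∀ a ∈ B, ∀ b ∈ B,
      JoinedIn (dr G f arc W) (f a) (f b) := by
    intro W B hBW hB a ha b hb
    have := hB a ha b hb
    induction this with
    | refl => exact JoinedIn.refl (Or.inl ⟨a, hBW ha, rfl⟩)
    | tail _ hbc ih =>
      exact (ih hbc.2.1).trans (hjoin W _ _ (hBW hbc.2.1) (hBW hbc.2.2) hbc.1)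
  choose v hv using h1
  have hpath : ∀ i j : Fin 5, i ≠ j → JoinedIn (dr G f arc (B i ∪ B j)) (f (v i)) (f (v j)) := by
    intro i j hij
    obtain ⟨x, hx, y, hy, hxy⟩ := h4 i j hij
    have e1 := hjoin2 (B i ∪ B j) (B i) Set.subset_union_left (h2 i) (v i) (hv i) x hx
    have e2 := hjoin (B i ∪ B j) x y (Or.inl hx) (Or.inr hy) hxy
    have e3 := hjoin2 (B i ∪ B j) (B j) Set.subset_union_right (h2 j) y hy (v j) (hv j)
    exact (e1.trans e2).trans e3
  have hγ : ∀ i j : Fin 5, ∃ γ : Path (f (v i)) (f (v j)),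
      i ≠ j → Set.range γ ⊆ dr G f arc (B i ∪ B j) := by
    intro i j
    by_cases hij : i = j
    · subst hij
      exact ⟨Path.refl _, fun h => absurd rfl h⟩
    · obtain ⟨γ, hγ⟩ := hpath i j hij
      refine ⟨γ, fun _ => ?_⟩
      rintro z ⟨t, rfl⟩
      exact hγ t
  choose γ hγ using hγ
  refine no_K5_continuous (fun i => f (v i)) γ ?_
  intro i j k m hij hkm hik him hjk hjm
  refine Set.disjoint_of_subset (hγ i j hij) (hγ k m hkm) (hdis _ _ ?_)
  rw [Set.disjoint_union_left, Set.disjoint_union_right, Set.disjoint_union_right]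
  exact ⟨⟨h3 i k hik, h3 i m him⟩, ⟨h3 j k hjk, h3 j m hjm⟩⟩

/-- Planar graphs are sparse. -/
theorem sparse_of_planar {V : Type*} [DecidableEq V] (G : SimpleGraph V)
    (hG : IsPlanar G) (A : Finset (Sym2 V)) (hA : (A : Set (Sym2 V)) ⊆ G.edgeSet) :
    A.card ≤ 3 * (A.biUnion (fun e => e.toFinset)).card := by
  classical
  by_contra hcon
  push Not at hcon
  let S := A.biUnion (fun e => e.toFinset)
  have hmem : ∀ x y, s(x, y) ∈ A → x ∈ S ∧ y ∈ S := by
    intro x y h
    exact ⟨Finset.mem_biUnion.2 ⟨_, h, by simp⟩, Finset.mem_biUnion.2 ⟨_, h, by simp⟩⟩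
  have h2 : 2 * A.card ≤ (prs G S).card := by
    have h3 : 2 * A.card ≤ ((prs G S).filter (fun p => s(p.1, p.2) ∈ A)).card := by
      apply Finset.mul_card_image_le_card_of_maps_to (f := fun p : V × V => s(p.1, p.2))
      · intro p hp
        exact (Finset.mem_filter.1 hp).2
      · intro e he
        induction e using Sym2.ind with
        | _ x y =>
          have hadj : G.Adj x y := hA he
          have : ({(x, y), (y, x)} : Finset (V × V)) ⊆
              ((prs G S).filter (fun p => s(p.1, p.2) ∈ A)).filter (fun p => s(p.1, p.2) = s(x, y)) := by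
            intro p hp
            rw [Finset.mem_insert, Finset.mem_singleton] at hp
            rw [Finset.mem_filter, Finset.mem_filter, mem_prs]
            rcases hp with rfl | rfl
            · exact ⟨⟨⟨hmem x y he, hadj⟩, he⟩, rfl⟩
            · exact ⟨⟨⟨(hmem x y he).symm, hadj.symm⟩, by rw [Sym2.eq_swap]; exact he⟩, Sym2.eq_swap⟩
          refine le_trans ?_ (Finset.card_le_card this)
          rw [Finset.card_pair]
          intro h
          exact hadj.ne (Prod.ext_iff.1 h).1
    exact h3.trans (Finset.card_filter_le _ _)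
  have h3 := card_prs_le G S
  have hS : 3 * S.card < A.card := hcon
  have hn : 3 ≤ S.card := by
    by_contra hlt
    push Not at hlt
    interval_cases h : S.card <;> omega
  exact not_hasK5 G hG (mader5 S.card S G rfl hn (by omega))

/-! ## The main theorem -/

lemma ceil_eq (Δ : ℕ) : ⌈((Δ : ℚ) + 1) / 3⌉₊ = (Δ + 3) / 3 := by
  rw [Nat.ceil_eq_iff (by omega)]
  have h1 : 3 * ((Δ + 3) / 3) ≤ Δ + 3 := Nat.mul_div_le _ _
  have h2 : Δ + 3 < 3 * ((Δ + 3) / 3) + 3 := by omega
  have h3 : ((Δ + 3) / 3 - 1 : ℕ) + 1 = (Δ + 3) / 3 := by omega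
  constructor
  · rw [lt_div_iff₀ (by norm_num)]
    have : 3 * ((Δ + 3) / 3 - 1) < Δ + 1 := by omega
    have h4 : ((3 * ((Δ + 3) / 3 - 1) : ℕ) : ℚ) < ((Δ + 1 : ℕ) : ℚ) := by exact_mod_cast this
    push_cast at h4 ⊢
    linarith
  · rw [div_le_iff₀ (by norm_num)]
    have : Δ + 1 ≤ 3 * ((Δ + 3) / 3) := by omega
    have h4 : ((Δ + 1 : ℕ) : ℚ) ≤ ((3 * ((Δ + 3) / 3) : ℕ) : ℚ) := by exact_mod_cast this
    push_cast at h4 ⊢
    linarith

/-- Every planar graph `G` has a unit bar visibility representation with at most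
`⌈(Δ(G) + 1) / 3⌉ + 1` bars per vertex; thus `ub(G) ≤ ⌈(Δ(G) + 1) / 3⌉ + 1` and no planar graph
satisfies `ub(G) = ⌈(Δ(G) + 1) / 3⌉ + 2`. -/
theorem result {V : Type*} [Fintype V] (G : SimpleGraph V) [DecidableRel G.Adj]
    (hG : IsPlanar G) :
    (∃ B, IsUnitBarRep G (⌈((G.maxDegree : ℚ) + 1) / 3⌉₊ + 1) B) ∧
      ub G ≤ ⌈((G.maxDegree : ℚ) + 1) / 3⌉₊ + 1 := by
  classical
  have key : ∃ B, IsUnitBarRep G (⌈((G.maxDegree : ℚ) + 1) / 3⌉₊ + 1) B := by
    rw [ceil_eq]
    exact rep_of_repArcs G _ (repArcs_of_sparse G (fun A hA => sparse_of_planar G hG A hA))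
  exact ⟨key, Nat.sInf_le key⟩

end Pool.Agent.Results.MP_482ee1_co.PlanarUnitBar
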